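import Pool.Agent.W_MP_e258d6_nt.Products

/-!
The infinite products and the infinite sum in the definition of `genFun` converge.
-/

set_option autoImplicit false

namespace Pool.Agent.W_MP_e258d6_nt

open PowerSeries Filter Topology
open scoped PowerSeries.WithPiTopology

/-- everything in the definition of `genFun` makes sense: the products converge, the
denominators are invertible power series, and the sum over `m` converges. -/
def WellDefined : Prop :=
  (∀ m : ℕ, Multipliable fun j : ℕ => (1 + X ^ (2 * m + 2 + 2 * j) : ℤ⟦X⟧)) ∧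
  (∀ m : ℕ, Multipliable fun j : ℕ => (1 - X ^ (2 * m + 1 + 2 * j) : ℤ⟦X⟧)) ∧
  (∀ m : ℕ, IsUnit ((∏' j : ℕ, (1 - X ^ (2 * m + 1 + 2 * j) : ℤ⟦X⟧)) ^ 2)) ∧
  Summable genTerm

lemma wellDefined : WellDefined := by
  refine ⟨fun m => ?_, fun m => ?_, fun m => ?_, ?_⟩
  · have h := multipliable_F 1 (2 * m + 2)
    simpa only [map_one, one_mul] using h
  · have h := multipliable_F (-1) (2 * m + 1)
    simpa only [map_one, one_mul, map_neg, neg_mul, ← sub_eq_add_neg] using h
  · have h := (isUnit_On m).pow 2
    unfold On F at h
    simpa only [map_one, one_mul, map_neg, neg_mul, ← sub_eq_add_neg] using h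
  · rw [WithPiTopology.summable_iff_summable_coeff]
    intro n
    apply summable_of_hasFiniteSupport
    apply (Finset.range (n + 1)).finite_toSet.subset
    intro m hm
    simp only [Function.mem_support, ne_eq] at hm
    simp only [Finset.coe_range, Set.mem_Iio]
    by_contra hlt
    apply hm
    have h1 : X ^ (2 * m + 1) ∣ genTerm m := by
      rw [genTerm_eq]
      exact Dvd.dvd.mul_right (dvd_mul_left _ _) _
    rw [X_pow_dvd_iff] at h1
    exact h1 n (by omega)

end Pool.Agent.W_MP_e258d6_nt
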