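import Mathlib

/-!
For `N ≡ 11 (mod 24)` the number of solutions of `3k² + 6ks + 2s² = N` and the number of
solutions of `3u² + 2y² = N` in natural numbers have the same parity.
-/

set_option autoImplicit false

namespace Pool.Agent.W_MP_e258d6_nt.Parity

open Finset

lemma card_parity {α : Type} [DecidableEq α] (S : Finset α) (ι : α → α)
    (h1 : ∀ v ∈ S, ι v ∈ S) (h2 : ∀ v ∈ S, ι (ι v) = v) :
    (S.card : ZMod 2) = ((S.filter (fun v => ι v = v)).card : ZMod 2) := by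
  have h0 : ∑ v ∈ S.filter (fun v => ¬ ι v = v), (1 : ZMod 2) = 0 := by
    refine Finset.sum_involution (fun v _ => ι v) ?_ ?_ ?_ ?_
    · intro v _; decide
    · intro v hv _
      exact (mem_filter.mp hv).2
    · intro v hv
      rw [mem_filter] at hv ⊢
      refine ⟨h1 v hv.1, ?_⟩
      rw [h2 v hv.1]
      exact fun h => hv.2 h.symm
    · intro v hv
      exact h2 v (mem_filter.mp hv).1
  rw [← Finset.card_filter_add_card_filter_not (s := S) (fun v => ι v = v)]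
  push_cast
  have h3 : ((S.filter (fun v => ¬ ι v = v)).card : ZMod 2) = 0 := by
    rw [← h0]; simp
  rw [h3, add_zero]

lemma bound_of_sq {z B : ℤ} (h : z ^ 2 ≤ B) : -B ≤ z ∧ z ≤ B := by
  constructor <;> by_contra hc <;> push Not at hc
  · nlinarith [sq_nonneg z, sq_nonneg (z + 1)]
  · nlinarith [sq_nonneg z, sq_nonneg (z - 1)]

abbrev V3 := ℤ × ℤ × ℤ

noncomputable def box (N : ℤ) : Finset V3 := (Icc (-(20 * N)) (20 * N)) ×ˢ (Icc (-(20 * N)) (20 * N)) ×ˢ
  (Icc (-(20 * N)) (20 * N))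

lemma mem_box {N x a c : ℤ} : (x, a, c) ∈ box N ↔ (-(20 * N) ≤ x ∧ x ≤ 20 * N) ∧
    (-(20 * N) ≤ a ∧ a ≤ 20 * N) ∧ (-(20 * N) ≤ c ∧ c ≤ 20 * N) := by
  simp [box]

noncomputable def VV (N : ℤ) : Finset V3 :=
  (box N).filter (fun v => 0 < v.2.1 ∧ 2 * v.1 ^ 2 + 3 * v.2.1 * v.2.2 = N)

lemma mem_VV {N x a c : ℤ} : (x, a, c) ∈ VV N ↔
    (x, a, c) ∈ box N ∧ 0 < a ∧ 2 * x ^ 2 + 3 * a * c = N := by
  simp [VV]

/-- the sign functionals -/
def p (v : V3) : ℤ := v.2.2 - v.2.1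
def r (v : V3) : ℤ := 4 * v.1 + 3 * v.2.2 - 3 * v.2.1
def t (v : V3) : ℤ := 2 * v.1 - 2 * v.2.1 + v.2.2

noncomputable def S1 (N : ℤ) : Finset V3 := (VV N).filter (fun v => 0 ≤ p v)
noncomputable def S2 (N : ℤ) : Finset V3 := (VV N).filter (fun v => p v * r v < 0)
noncomputable def S3 (N : ℤ) : Finset V3 := (VV N).filter (fun v => r v * t v < 0)
noncomputable def S4 (N : ℤ) : Finset V3 := (VV N).filter (fun v => 0 < t v)

lemma mem_S1 {N x a c : ℤ} : (x, a, c) ∈ S1 N ↔ (x, a, c) ∈ VV N ∧ 0 ≤ p (x, a, c) := by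
  simp [S1]
lemma mem_S2 {N x a c : ℤ} :
    (x, a, c) ∈ S2 N ↔ (x, a, c) ∈ VV N ∧ p (x, a, c) * r (x, a, c) < 0 := by
  simp [S2]
lemma mem_S3 {N x a c : ℤ} :
    (x, a, c) ∈ S3 N ↔ (x, a, c) ∈ VV N ∧ r (x, a, c) * t (x, a, c) < 0 := by
  simp [S3]
lemma mem_S4 {N x a c : ℤ} : (x, a, c) ∈ S4 N ↔ (x, a, c) ∈ VV N ∧ 0 < t (x, a, c) := by
  simp [S4]

lemma mod_facts {N x a c : ℤ} (hN : N % 24 = 11) (h : 2 * x ^ 2 + 3 * a * c = N) :
    x % 3 ≠ 0 ∧ c ≠ 0 ∧ a ≠ 0 ∧ N % 2 = 1 := by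
  refine ⟨?_, ?_, ?_, by omega⟩
  · intro hx
    obtain ⟨y, rfl⟩ := Int.dvd_of_emod_eq_zero hx
    have : N = 3 * (6 * y ^ 2 + a * c) := by rw [← h]; ring
    omega
  · rintro rfl
    have : N = 2 * x ^ 2 := by rw [← h]; ring
    omega
  · rintro rfl
    have : N = 2 * x ^ 2 := by rw [← h]; ring
    omega

lemma r_ne {N x a c : ℤ} (hN : N % 24 = 11) (h : 2 * x ^ 2 + 3 * a * c = N) :
    r (x, a, c) ≠ 0 := by
  obtain ⟨h1, _⟩ := mod_facts hN h
  simp only [r]
  omega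

lemma t_ne {N x a c : ℤ} (hN : N % 24 = 11) (h : 2 * x ^ 2 + 3 * a * c = N) :
    t (x, a, c) ≠ 0 := by
  intro h0
  simp only [t] at h0
  have hc : c = 2 * a - 2 * x := by linarith
  subst hc
  have : N = 2 * (x ^ 2 + 3 * a * (a - x)) := by rw [← h]; ring
  omega

/-! ### bounds -/

lemma bd1 {N x a c : ℤ} (ha : 0 < a) (h : 2 * x ^ 2 + 3 * a * c = N) (hp : a ≤ c) :
    (x, a, c) ∈ box N := by
  have h1 : x ^ 2 ≤ N := by nlinarith [sq_nonneg x]
  have h2 : a ^ 2 ≤ N := by nlinarith [sq_nonneg x]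
  have h3 : c ≤ N := by nlinarith [sq_nonneg x]
  have := bound_of_sq h1
  have := bound_of_sq h2
  rw [mem_box]
  refine ⟨⟨by linarith, by linarith⟩, ⟨by linarith, by linarith⟩, by linarith, by linarith⟩

lemma bd2 {N x a c : ℤ} (h : 2 * x ^ 2 + 3 * a * c = N) (hp : p (x, a, c) * r (x, a, c) < 0) :
    (x, a, c) ∈ box N := by
  simp only [p, r] at hp
  have key : 8 * N = (4 * x + 3 * c - 3 * a) ^ 2 - 6 * ((c - a) * (4 * x + 3 * c - 3 * a))
      + 3 * (c - a) ^ 2 + 6 * (a + c) ^ 2 := by rw [← h]; ring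
  have h1 : (4 * x + 3 * c - 3 * a) ^ 2 ≤ 8 * N := by
    nlinarith [sq_nonneg (c - a), sq_nonneg (a + c)]
  have h2 : (c - a) ^ 2 ≤ 8 * N := by
    nlinarith [sq_nonneg (4 * x + 3 * c - 3 * a), sq_nonneg (a + c), sq_nonneg (c - a)]
  have h3 : (a + c) ^ 2 ≤ 8 * N := by
    nlinarith [sq_nonneg (4 * x + 3 * c - 3 * a), sq_nonneg (a + c), sq_nonneg (c - a)]
  have b1 := bound_of_sq h1
  have b2 := bound_of_sq h2
  have b3 := bound_of_sq h3
  rw [mem_box]
  refine ⟨⟨by linarith, by linarith⟩, ⟨by linarith, by linarith⟩, by linarith, by linarith⟩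

lemma bd3 {N x a c : ℤ} (h : 2 * x ^ 2 + 3 * a * c = N) (hp : r (x, a, c) * t (x, a, c) < 0) :
    (x, a, c) ∈ box N := by
  simp only [t, r] at hp
  have key : 2 * N = (4 * x + 3 * c - 3 * a) ^ 2
      - 6 * ((4 * x + 3 * c - 3 * a) * (2 * x - 2 * a + c))
      + 6 * (2 * x - 2 * a + c) ^ 2 + 3 * (a - c - 2 * x) ^ 2 := by rw [← h]; ring
  have h1 : (4 * x + 3 * c - 3 * a) ^ 2 ≤ 2 * N := by
    nlinarith [sq_nonneg (2 * x - 2 * a + c), sq_nonneg (a - c - 2 * x)]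
  have h2 : (2 * x - 2 * a + c) ^ 2 ≤ 2 * N := by
    nlinarith [sq_nonneg (4 * x + 3 * c - 3 * a), sq_nonneg (a - c - 2 * x),
      sq_nonneg (2 * x - 2 * a + c)]
  have h3 : (a - c - 2 * x) ^ 2 ≤ 2 * N := by
    nlinarith [sq_nonneg (4 * x + 3 * c - 3 * a), sq_nonneg (a - c - 2 * x),
      sq_nonneg (2 * x - 2 * a + c)]
  have b1 := bound_of_sq h1
  have b2 := bound_of_sq h2
  have b3 := bound_of_sq h3
  rw [mem_box]
  refine ⟨⟨by linarith, by linarith⟩, ⟨by linarith, by linarith⟩, by linarith, by linarith⟩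

lemma bd4 {N x a c : ℤ} (ha : 0 < a) (h : 2 * x ^ 2 + 3 * a * c = N) (hp : 0 < t (x, a, c)) :
    (x, a, c) ∈ box N := by
  simp only [t] at hp
  have key : 2 * N = (2 * x - 3 * a) ^ 2 + 3 * a ^ 2 + 6 * (a * (2 * x - 2 * a + c)) := by
    rw [← h]; ring
  have hpos : 0 < a * (2 * x - 2 * a + c) := mul_pos ha hp
  have h1 : (2 * x - 3 * a) ^ 2 ≤ 2 * N := by nlinarith [sq_nonneg a]
  have h2 : a ^ 2 ≤ 2 * N := by nlinarith [sq_nonneg a, sq_nonneg (2 * x - 3 * a)]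
  have h3 : 2 * x - 2 * a + c ≤ 2 * N := by
    nlinarith [sq_nonneg a, sq_nonneg (2 * x - 3 * a)]
  have b1 := bound_of_sq h1
  have b2 := bound_of_sq h2
  rw [mem_box]
  refine ⟨⟨by linarith, by linarith⟩, ⟨by linarith, by linarith⟩, by linarith, by linarith⟩

/-! ### involutions -/

lemma S1_even {N : ℤ} (hN : N % 24 = 11) : ((S1 N).card : ZMod 2) = 0 := by
  rw [card_parity (S1 N) (fun v => (-v.1, v.2.1, v.2.2))]
  · rw [filter_eq_empty_iff.mpr]
    · simp
    · rintro ⟨x, a, c⟩ hv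
      rw [mem_S1, mem_VV] at hv
      obtain ⟨⟨_, _, h⟩, _⟩ := hv
      have := mod_facts hN h
      simp only [Prod.mk.injEq, and_true]
      omega
  · rintro ⟨x, a, c⟩ hv
    rw [mem_S1, mem_VV] at hv
    change (-x, a, c) ∈ S1 N
    rw [mem_S1, mem_VV]
    simp only [p] at hv ⊢
    obtain ⟨⟨_, ha, h⟩, hp⟩ := hv
    have h' : 2 * (-x) ^ 2 + 3 * a * c = N := by rw [← h]; ring
    exact ⟨⟨bd1 ha h' (by linarith), ha, h'⟩, hp⟩
  · rintro ⟨x, a, c⟩ _
    simp

lemma S4_even {N : ℤ} (hN : N % 24 = 11) : ((S4 N).card : ZMod 2) = 0 := by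
  rw [card_parity (S4 N) (fun v => (3 * v.2.1 - v.1, v.2.1, v.2.2 + 4 * v.1 - 6 * v.2.1))]
  · rw [filter_eq_empty_iff.mpr]
    · simp
    · rintro ⟨x, a, c⟩ hv
      rw [mem_S4, mem_VV] at hv
      obtain ⟨⟨_, _, h⟩, _⟩ := hv
      simp only [Prod.mk.injEq, true_and, not_and]
      intro h1 _
      have h2 : 3 * a = 2 * x := by linarith
      have h3 : N = 2 * (x ^ 2 + x * c) := by
        rw [← h]; rw [h2]; ring
      omega
  · rintro ⟨x, a, c⟩ hv
    rw [mem_S4, mem_VV] at hv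
    change (3 * a - x, a, c + 4 * x - 6 * a) ∈ S4 N
    rw [mem_S4, mem_VV]
    simp only [t] at hv ⊢
    obtain ⟨⟨_, ha, h⟩, hp⟩ := hv
    have h' : 2 * (3 * a - x) ^ 2 + 3 * a * (c + 4 * x - 6 * a) = N := by rw [← h]; ring
    have hp' : 0 < 2 * (3 * a - x) - 2 * a + (c + 4 * x - 6 * a) := by linarith
    exact ⟨⟨bd4 ha h' (by simpa only [t] using hp'), ha, h'⟩, hp'⟩
  · rintro ⟨x, a, c⟩ _
    simp only [Prod.mk.injEq, true_and]
    constructor <;> ring

def i2 (v : V3) : V3 := if v.2.2 < 0 then (v.1, -v.2.2, -v.2.1) else (-v.1, v.2.2, v.2.1)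

lemma S2_even {N : ℤ} (hN : N % 24 = 11) : ((S2 N).card : ZMod 2) = 0 := by
  rw [card_parity (S2 N) i2]
  · rw [filter_eq_empty_iff.mpr]
    · simp
    · rintro ⟨x, a, c⟩ hv
      rw [mem_S2, mem_VV] at hv
      obtain ⟨⟨_, ha, h⟩, _⟩ := hv
      have hm := mod_facts hN h
      unfold i2
      simp only
      split_ifs with hc
      · simp only [Prod.mk.injEq, true_and, not_and]
        intro h1 _
        have h2 : c = -a := by linarith
        subst h2
        have h3 : 2 * x ^ 2 - 3 * a ^ 2 = N := by rw [← h]; ring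
        have h4 : a % 2 = 1 := by
          by_contra h5
          obtain ⟨y, rfl⟩ : ∃ y, a = 2 * y := ⟨a / 2, by omega⟩
          have : N = 2 * (x ^ 2 - 6 * y ^ 2) := by rw [← h3]; ring
          omega
        have h5 : x % 2 = 0 ∨ x % 2 = 1 := by omega
        obtain ⟨y, rfl⟩ : ∃ y, a = 2 * y + 1 := ⟨a / 2, by omega⟩
        have hy : ∃ z, y * (y + 1) = 2 * z := by
          have := Int.even_mul_succ_self y
          obtain ⟨z, hz⟩ := this
          exact ⟨z, by linarith⟩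
        obtain ⟨z, hz⟩ := hy
        rcases h5 with h5 | h5
        · obtain ⟨u, rfl⟩ : ∃ u, x = 2 * u := ⟨x / 2, by omega⟩
          have : N = 8 * u ^ 2 - 24 * z - 3 := by rw [← h3]; linear_combination -12 * hz
          omega
        · obtain ⟨u, rfl⟩ : ∃ u, x = 2 * u + 1 := ⟨x / 2, by omega⟩
          have hu : ∃ z, u * (u + 1) = 2 * z := by
            obtain ⟨z, hz⟩ := Int.even_mul_succ_self u
            exact ⟨z, by linarith⟩
          obtain ⟨z', hz'⟩ := hu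
          have : N = 16 * z' - 24 * z - 1 := by
            rw [← h3]; linear_combination -12 * hz + 8 * hz'
          omega
      · simp only [Prod.mk.injEq, not_and]
        omega
  · rintro ⟨x, a, c⟩ hv
    rw [mem_S2, mem_VV] at hv
    obtain ⟨⟨_, ha, h⟩, hp⟩ := hv
    have hm := mod_facts hN h
    unfold i2
    simp only
    split_ifs with hc
    · have h' : 2 * x ^ 2 + 3 * (-c) * (-a) = N := by rw [← h]; ring
      have hp' : p (x, -c, -a) * r (x, -c, -a) < 0 := by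
        simp only [p, r] at hp ⊢
        linarith [hp]
      rw [mem_S2, mem_VV]
      exact ⟨⟨bd2 h' hp', by linarith, h'⟩, hp'⟩
    · have h' : 2 * (-x) ^ 2 + 3 * c * a = N := by rw [← h]; ring
      have hp' : p (-x, c, a) * r (-x, c, a) < 0 := by
        simp only [p, r] at hp ⊢
        linarith [hp]
      rw [mem_S2, mem_VV]
      exact ⟨⟨bd2 h' hp', by omega, h'⟩, hp'⟩
  · rintro ⟨x, a, c⟩ hv
    rw [mem_S2, mem_VV] at hv
    obtain ⟨⟨_, ha, h⟩, hp⟩ := hv
    unfold i2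
    simp only
    split_ifs with h1 h2 h2
    · simp
    · simp at h2; omega
    · simp at h2; omega
    · simp

def s3 (v : V3) : V3 :=
  (3 * v.2.1 - 3 * v.2.2 - 5 * v.1, 3 * v.2.1 - 2 * v.2.2 - 4 * v.1,
    -2 * v.2.1 + 3 * v.2.2 + 4 * v.1)

def i3 (v : V3) : V3 := if 0 < (s3 v).2.1 then s3 v else (-(s3 v).1, -(s3 v).2.1, -(s3 v).2.2)

lemma s3_norm (x a c : ℤ) : 2 * (s3 (x, a, c)).1 ^ 2 + 3 * (s3 (x, a, c)).2.1 * (s3 (x, a, c)).2.2 =
    2 * x ^ 2 + 3 * a * c := by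
  simp only [s3]
  ring

lemma S3_card {N : ℤ} (hN : N % 24 = 11) : ((S3 N).card : ZMod 2) =
    (((S3 N).filter (fun v => i3 v = v)).card : ZMod 2) := by
  apply card_parity
  · rintro ⟨x, a, c⟩ hv
    rw [mem_S3, mem_VV] at hv
    obtain ⟨⟨_, ha, h⟩, hp⟩ := hv
    have hn := s3_norm x a c
    rw [h] at hn
    have hm := mod_facts hN hn
    unfold i3
    split_ifs with hc
    · obtain ⟨⟨x', a', c'⟩, hs⟩ : ∃ v, s3 (x, a, c) = v := ⟨_, rfl⟩
      rw [hs] at hn hc ⊢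
      have hp' : r (x', a', c') * t (x', a', c') < 0 := by
        simp only [s3, Prod.mk.injEq] at hs
        obtain ⟨rfl, rfl, rfl⟩ := hs
        simp only [t, r] at hp ⊢
        linarith [hp]
      rw [mem_S3, mem_VV]
      exact ⟨⟨bd3 hn hp', hc, hn⟩, hp'⟩
    · obtain ⟨⟨x', a', c'⟩, hs⟩ : ∃ v, s3 (x, a, c) = v := ⟨_, rfl⟩
      rw [hs] at hn hc hm ⊢
      simp only at hn hc hm ⊢
      have hn' : 2 * (-x') ^ 2 + 3 * (-a') * (-c') = N := by rw [← hn]; ring
      have hp' : r (-x', -a', -c') * t (-x', -a', -c') < 0 := by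
        simp only [s3, Prod.mk.injEq] at hs
        obtain ⟨rfl, rfl, rfl⟩ := hs
        simp only [t, r] at hp ⊢
        linarith [hp]
      rw [mem_S3, mem_VV]
      exact ⟨⟨bd3 hn' hp', by omega, hn'⟩, hp'⟩
  · rintro ⟨x, a, c⟩ hv
    rw [mem_S3, mem_VV] at hv
    obtain ⟨⟨_, ha, h⟩, hp⟩ := hv
    by_cases h1 : 0 < (s3 (x, a, c)).2.1
    · have e1 : i3 (x, a, c) = s3 (x, a, c) := by unfold i3; rw [if_pos h1]
      have e2 : s3 (s3 (x, a, c)) = (x, a, c) := by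
        simp only [s3, Prod.mk.injEq]
        refine ⟨by ring, by ring, by ring⟩
      rw [e1]
      unfold i3
      rw [e2, if_pos ha]
    · have e1 : i3 (x, a, c) = (-(s3 (x, a, c)).1, -(s3 (x, a, c)).2.1, -(s3 (x, a, c)).2.2) := by
        unfold i3; rw [if_neg h1]
      have e2 : s3 (-(s3 (x, a, c)).1, -(s3 (x, a, c)).2.1, -(s3 (x, a, c)).2.2) =
          (-x, -a, -c) := by
        simp only [s3, Prod.mk.injEq]
        refine ⟨by ring, by ring, by ring⟩
      rw [e1]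
      unfold i3
      rw [e2, if_neg (by simp only; linarith)]
      simp

/-! ### counting sign changes -/

noncomputable def Bset (N : ℤ) : Finset V3 := (VV N).filter (fun v => p v = 0 ∧ r v < 0)

lemma sign_count {N : ℤ} (hN : N % 24 = 11) :
    ((S1 N).card : ZMod 2) + (S2 N).card + (S3 N).card + (S4 N).card = (Bset N).card := by
  have hcard : ∀ (P : V3 → Prop) [DecidablePred P],
      (((VV N).filter P).card : ZMod 2) = ∑ v ∈ VV N, if P v then (1 : ZMod 2) else 0 := by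
    intro P _
    rw [card_filter]
    push_cast
    rfl
  unfold S1 S2 S3 S4 Bset
  rw [hcard, hcard, hcard, hcard, hcard, ← sum_add_distrib, ← sum_add_distrib, ← sum_add_distrib]
  apply sum_congr rfl
  rintro ⟨x, a, c⟩ hv
  rw [mem_VV] at hv
  obtain ⟨_, ha, h⟩ := hv
  have hr := r_ne hN h
  have ht := t_ne hN h
  generalize p (x, a, c) = P at *
  generalize r (x, a, c) = R at *
  generalize t (x, a, c) = T at *
  simp only [mul_neg_iff]
  split_ifs <;> first | decide | (exfalso; omega)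


/-! ### the two counting sets -/

/-- solutions of `3k² + 6ks + 2s² = N` in natural numbers -/
def Aset (N : ℕ) : Finset (ℕ × ℕ) := (range (N + 1) ×ˢ range (N + 1)).filter
  (fun v => 3 * v.1 ^ 2 + 6 * v.1 * v.2 + 2 * v.2 ^ 2 = N)

/-- solutions of `3u² + 2y² = N` in natural numbers -/
def Bset' (N : ℕ) : Finset (ℕ × ℕ) := (range (N + 1) ×ˢ range (N + 1)).filter
  (fun v => 3 * v.1 ^ 2 + 2 * v.2 ^ 2 = N)

lemma mem_Aset {N k s : ℕ} : (k, s) ∈ Aset N ↔ 3 * k ^ 2 + 6 * k * s + 2 * s ^ 2 = N := by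
  unfold Aset
  simp only [mem_filter, mem_product, mem_range, and_iff_right_iff_imp]
  intro h
  constructor
  · nlinarith [Nat.zero_le (k * s), Nat.zero_le (s ^ 2), Nat.zero_le k]
  · nlinarith [Nat.zero_le (k * s), Nat.zero_le (k ^ 2), Nat.zero_le s]

lemma mem_Bset' {N k s : ℕ} : (k, s) ∈ Bset' N ↔ 3 * k ^ 2 + 2 * s ^ 2 = N := by
  unfold Bset'
  simp only [mem_filter, mem_product, mem_range, and_iff_right_iff_imp]
  intro h
  constructor
  · nlinarith [Nat.zero_le (s ^ 2), Nat.zero_le k]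
  · nlinarith [Nat.zero_le (k ^ 2), Nat.zero_le s]

lemma card_A (N : ℕ) (hN : N % 24 = 11) :
    ((S3 (N : ℤ)).filter (fun v => i3 v = v)).card = (Aset N).card := by
  have hN' : (N : ℤ) % 24 = 11 := by omega
  symm
  refine Finset.card_bij (fun v _ => (-(v.2 : ℤ), (v.1 : ℤ), (v.1 : ℤ) + 2 * v.2)) ?_ ?_ ?_
  · rintro ⟨k, s⟩ hv
    rw [mem_Aset] at hv
    simp only
    have hk : 0 < k := by
      rcases Nat.eq_zero_or_pos k with rfl | h
      · have : N = 2 * s ^ 2 := by rw [← hv]; ring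
        omega
      · exact h
    have hs : 0 < s := by
      rcases Nat.eq_zero_or_pos s with rfl | h
      · have : N = 3 * k ^ 2 := by rw [← hv]; ring
        omega
      · exact h
    have hkz : (0 : ℤ) < k := by exact_mod_cast hk
    have hsz : (0 : ℤ) < s := by exact_mod_cast hs
    have hvz : 3 * (k : ℤ) ^ 2 + 6 * k * s + 2 * (s : ℤ) ^ 2 = N := by exact_mod_cast hv
    have hF : 2 * (-(s : ℤ)) ^ 2 + 3 * (k : ℤ) * (k + 2 * s) = N := by rw [← hvz]; ring
    have hrt : r (-(s : ℤ), (k : ℤ), (k : ℤ) + 2 * s) * t (-(s : ℤ), (k : ℤ), (k : ℤ) + 2 * s) < 0 := by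
      simp only [r, t]
      have : (4 * -(s : ℤ) + 3 * ((k : ℤ) + 2 * s) - 3 * k) * (2 * -(s : ℤ) - 2 * k + (k + 2 * s)) =
        -(2 * (s * k)) := by ring
      rw [this]
      have := mul_pos hsz hkz
      linarith
    rw [mem_filter, mem_S3, mem_VV]
    refine ⟨⟨⟨bd3 hF hrt, hkz, hF⟩, hrt⟩, ?_⟩
    have e1 : s3 (-(s : ℤ), (k : ℤ), (k : ℤ) + 2 * s) = (-(s : ℤ), (k : ℤ), (k : ℤ) + 2 * s) := by
      simp only [s3, Prod.mk.injEq]
      refine ⟨by ring, by ring, by ring⟩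
    unfold i3
    rw [e1, if_pos (by simpa using hkz)]
  · rintro ⟨k, s⟩ _ ⟨k', s'⟩ _ h
    simp only [Prod.mk.injEq, neg_inj, Nat.cast_inj] at h
    simp [h.1, h.2.1]
  · rintro ⟨x, a, c⟩ hv
    rw [mem_filter, mem_S3, mem_VV] at hv
    obtain ⟨⟨⟨_, ha, hF⟩, hrt⟩, hi⟩ := hv
    have hg : a - c - 2 * x = 0 := by
      unfold i3 at hi
      split_ifs at hi with h1
      · simp only [s3, Prod.mk.injEq] at hi
        linarith [hi.1, hi.2.1]
      · exfalso
        simp only [s3, Prod.mk.injEq] at hi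
        obtain ⟨h2, h3, h4⟩ := hi
        simp only [r, t] at hrt
        have hr0 : 4 * x + 3 * c - 3 * a = 0 := by linarith
        rw [hr0] at hrt
        simp at hrt
    have hc : c = a - 2 * x := by linarith
    subst hc
    simp only [r, t] at hrt
    have h5 : (4 * x + 3 * (a - 2 * x) - 3 * a) * (2 * x - 2 * a + (a - 2 * x)) = 2 * (x * a) := by
      ring
    rw [h5] at hrt
    have hx : x < 0 := by
      by_contra hx
      push Not at hx
      have := mul_nonneg hx ha.le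
      linarith
    refine ⟨(a.toNat, (-x).toNat), ?_, ?_⟩
    · rw [mem_Aset]
      zify
      rw [Int.toNat_of_nonneg ha.le, Int.toNat_of_nonneg (by linarith)]
      rw [← hF]
      ring
    · simp only [Prod.mk.injEq]
      rw [Int.toNat_of_nonneg ha.le, Int.toNat_of_nonneg (by linarith)]
      refine ⟨by ring, rfl, by ring⟩

lemma card_B (N : ℕ) (hN : N % 24 = 11) : (Bset (N : ℤ)).card = (Bset' N).card := by
  symm
  refine Finset.card_bij (fun v _ => (-(v.2 : ℤ), (v.1 : ℤ), (v.1 : ℤ))) ?_ ?_ ?_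
  · rintro ⟨k, s⟩ hv
    rw [mem_Bset'] at hv
    simp only
    have hk : 0 < k := by
      rcases Nat.eq_zero_or_pos k with rfl | h
      · have : N = 2 * s ^ 2 := by rw [← hv]; ring
        omega
      · exact h
    have hs : 0 < s := by
      rcases Nat.eq_zero_or_pos s with rfl | h
      · have : N = 3 * k ^ 2 := by rw [← hv]; ring
        omega
      · exact h
    have hkz : (0 : ℤ) < k := by exact_mod_cast hk
    have hsz : (0 : ℤ) < s := by exact_mod_cast hs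
    have hvz : 3 * (k : ℤ) ^ 2 + 2 * (s : ℤ) ^ 2 = N := by exact_mod_cast hv
    have hF : 2 * (-(s : ℤ)) ^ 2 + 3 * (k : ℤ) * k = N := by rw [← hvz]; ring
    unfold Bset
    rw [mem_filter, mem_VV]
    refine ⟨⟨bd1 hkz hF le_rfl, hkz, hF⟩, ?_, ?_⟩
    · simp [p]
    · simp [r]; omega
  · rintro ⟨k, s⟩ _ ⟨k', s'⟩ _ h
    simp only [Prod.mk.injEq, neg_inj, Nat.cast_inj] at h
    simp [h.1, h.2.1]
  · rintro ⟨x, a, c⟩ hv
    unfold Bset at hv
    rw [mem_filter, mem_VV] at hv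
    obtain ⟨⟨_, ha, hF⟩, hp, hr⟩ := hv
    simp only [p, r] at hp hr
    have hc : c = a := by linarith
    subst hc
    refine ⟨(c.toNat, (-x).toNat), ?_, ?_⟩
    · rw [mem_Bset']
      zify
      rw [Int.toNat_of_nonneg ha.le, Int.toNat_of_nonneg (by linarith)]
      rw [← hF]
      ring
    · simp only [Prod.mk.injEq]
      rw [Int.toNat_of_nonneg ha.le, Int.toNat_of_nonneg (by linarith)]
      refine ⟨by ring, rfl, rfl⟩

/-- the parity theorem -/
theorem card_A_eq_card_B (N : ℕ) (hN : N % 24 = 11) :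
    ((Aset N).card : ZMod 2) = ((Bset' N).card : ZMod 2) := by
  have hN' : (N : ℤ) % 24 = 11 := by omega
  have h := sign_count hN'
  rw [S1_even hN', S2_even hN', S4_even hN', S3_card hN', card_A N hN, card_B N hN] at h
  simpa using h

end Pool.Agent.W_MP_e258d6_nt.Parity
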