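import Pool.Agent.W_MP_e258d6_nt.Identity
import Pool.Agent.W_MP_e258d6_nt.Parity

set_option autoImplicit false

namespace Pool.Agent.W_MP_e258d6_nt

open PowerSeries Finset Parity

/-- the quadratic residue symbol mod 3 -/
def chi (s : ℕ) : ℤ := if s % 3 = 1 then 1 else if s % 3 = 2 then -1 else 0

/-- `R(M) = ∑ w_k χ(s)` over `3k² + 6ks + 2s² = M` -/
def R (M : ℕ) : ℤ := ∑ v ∈ Aset M, w v.1 * chi v.2

lemma chi_two_mul (s : ℕ) : chi (2 * s) = - chi s := by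
  unfold chi
  have : s % 3 = 0 ∨ s % 3 = 1 ∨ s % 3 = 2 := by omega
  rcases this with h | h | h
  · have h' : (2 * s) % 3 = 0 := by omega
    simp [h, h']
  · have h' : (2 * s) % 3 = 2 := by omega
    simp [h, h']
  · have h' : (2 * s) % 3 = 1 := by omega
    simp [h, h']

lemma eps_two_mul (s : ℕ) : eps (2 * s) = chi s := by
  unfold chi eps
  have : s % 3 = 0 ∨ s % 3 = 1 ∨ s % 3 = 2 := by omega
  rcases this with h | h | h
  · have h' : (2 * s) % 6 = 0 := by omega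
    simp [h, h']
  · have h' : (2 * s) % 6 = 2 := by omega
    simp [h, h']
  · have h' : (2 * s) % 6 = 4 := by omega
    simp [h, h']

lemma w_two_mul (k : ℕ) : w (2 * k) = w k := by
  unfold w
  rcases Nat.eq_zero_or_pos k with rfl | h
  · simp
  · rw [if_neg (by omega), if_neg (by omega)]

lemma cond_iff {k s e : ℕ} (hs : s % 3 ≠ 0) :
    k ^ 2 + 1 + ex k s = e ↔ 3 * k ^ 2 + 6 * k * s + 2 * s ^ 2 + 1 = 3 * e := by
  unfold ex
  have h := three_mul_div hs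
  generalize (s ^ 2 - 1) / 3 = d at *
  have h2 : 3 * (k ^ 2 + 1 + (2 * k * s + 2 * d)) =
      3 * k ^ 2 + 6 * k * s + 2 * s ^ 2 + 1 := by
    rw [← h]; ring
  omega

lemma hc_eq (e : ℕ) : hc e = ∑ v ∈ Aset (3 * e - 1), w v.1 * (-1) ^ v.1 * eps v.2 := by
  unfold hc
  rw [← sum_product' (f := fun k s => if k ^ 2 + 1 + ex k s = e then w k * (-1) ^ k * eps s else 0)]
  rw [← sum_filter]
  rw [← sum_filter_of_ne (p := fun v : ℕ × ℕ => v.2 % 3 ≠ 0)
    (s := filter (fun v : ℕ × ℕ => v.1 ^ 2 + 1 + ex v.1 v.2 = e) _)]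
  · rw [← sum_filter_of_ne (p := fun v : ℕ × ℕ => v.2 % 3 ≠ 0) (s := Aset (3 * e - 1))]
    · apply sum_congr _ (fun _ _ => rfl)
      ext ⟨k, s⟩
      rw [mem_filter, mem_filter, mem_filter, mem_Aset, mem_product, mem_range, mem_range]
      simp only
      constructor
      · rintro ⟨⟨_, h1⟩, h2⟩
        rw [cond_iff h2] at h1
        exact ⟨by omega, h2⟩
      · rintro ⟨h1, h2⟩
        have hs : 0 < s := by
          rcases s with _ | s
          · simp at h2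
          · omega
        have h3 : 3 * k ^ 2 + 6 * k * s + 2 * s ^ 2 + 1 = 3 * e := by
          have : 0 < s ^ 2 := by positivity
          omega
        refine ⟨⟨⟨?_, ?_⟩, (cond_iff h2).mpr h3⟩, h2⟩
        · nlinarith [Nat.zero_le (k * s), Nat.zero_le (s ^ 2)]
        · nlinarith [Nat.zero_le (k * s), Nat.zero_le (k ^ 2)]
    · intro v _ h h0
      apply h
      rw [eps_eq_zero h0, mul_zero]
  · intro v _ h h0
    apply h
    rw [eps_eq_zero h0, mul_zero]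

/-! ### congruence properties of the solutions -/

lemma form_mod4 {k s M : ℕ} (h : 3 * k ^ 2 + 6 * k * s + 2 * s ^ 2 = M) : M % 4 ≠ 1 := by
  subst h
  have hk : k % 4 = 0 ∨ k % 4 = 1 ∨ k % 4 = 2 ∨ k % 4 = 3 := by omega
  have hs : s % 4 = 0 ∨ s % 4 = 1 ∨ s % 4 = 2 ∨ s % 4 = 3 := by omega
  rcases hk with hk | hk | hk | hk <;> rcases hs with hs | hs | hs | hs <;>
    simp [Nat.add_mod, Nat.mul_mod, Nat.pow_mod, hk, hs]

lemma form_even {k s M : ℕ} (h : 3 * k ^ 2 + 6 * k * s + 2 * s ^ 2 = 4 * M) :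
    k % 2 = 0 ∧ s % 2 = 0 := by
  have h4 : (3 * k ^ 2 + 6 * k * s + 2 * s ^ 2) % 4 = 0 := by omega
  have hk : k % 4 = 0 ∨ k % 4 = 1 ∨ k % 4 = 2 ∨ k % 4 = 3 := by omega
  have hs : s % 4 = 0 ∨ s % 4 = 1 ∨ s % 4 = 2 ∨ s % 4 = 3 := by omega
  rcases hk with hk | hk | hk | hk <;> rcases hs with hs | hs | hs | hs <;>
    simp [Nat.add_mod, Nat.mul_mod, Nat.pow_mod, hk, hs] at h4 <;> omega

lemma form_mod8 {k s M : ℕ} (h : 3 * k ^ 2 + 6 * k * s + 2 * s ^ 2 = M) : M % 8 ≠ 6 := by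
  subst h
  have hk : k % 8 = 0 ∨ k % 8 = 1 ∨ k % 8 = 2 ∨ k % 8 = 3 ∨ k % 8 = 4 ∨ k % 8 = 5 ∨ k % 8 = 6 ∨
    k % 8 = 7 := by omega
  have hs : s % 8 = 0 ∨ s % 8 = 1 ∨ s % 8 = 2 ∨ s % 8 = 3 ∨ s % 8 = 4 ∨ s % 8 = 5 ∨ s % 8 = 6 ∨
    s % 8 = 7 := by omega
  rcases hk with hk | hk | hk | hk | hk | hk | hk | hk <;>
    rcases hs with hs | hs | hs | hs | hs | hs | hs | hs <;>
    simp [Nat.add_mod, Nat.mul_mod, Nat.pow_mod, hk, hs]

lemma Aset_empty_of_mod4 {M : ℕ} (h : M % 4 = 1) : Aset M = ∅ := by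
  rw [eq_empty_iff_forall_notMem]
  rintro ⟨k, s⟩ hv
  rw [mem_Aset] at hv
  exact form_mod4 hv h

lemma Aset_empty_of_mod8 {M : ℕ} (h : M % 8 = 6) : Aset M = ∅ := by
  rw [eq_empty_iff_forall_notMem]
  rintro ⟨k, s⟩ hv
  rw [mem_Aset] at hv
  exact form_mod8 hv h

lemma sum_Aset_four (M : ℕ) (W : ℕ → ℕ → ℤ) :
    ∑ v ∈ Aset (4 * M), W v.1 v.2 = ∑ v ∈ Aset M, W (2 * v.1) (2 * v.2) := by
  symm
  refine sum_bij (fun v _ => (2 * v.1, 2 * v.2)) ?_ ?_ ?_ ?_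
  · rintro ⟨k, s⟩ hv
    rw [mem_Aset] at hv ⊢
    rw [← hv]; ring
  · rintro ⟨k, s⟩ _ ⟨k', s'⟩ _ h
    simp only [Prod.mk.injEq] at h ⊢
    omega
  · rintro ⟨k, s⟩ hv
    rw [mem_Aset] at hv
    obtain ⟨h1, h2⟩ := form_even hv
    obtain ⟨k', rfl⟩ : ∃ k', k = 2 * k' := ⟨k / 2, by omega⟩
    obtain ⟨s', rfl⟩ : ∃ s', s = 2 * s' := ⟨s / 2, by omega⟩
    refine ⟨(k', s'), ?_, rfl⟩
    rw [mem_Aset]
    have : 4 * (3 * k' ^ 2 + 6 * k' * s' + 2 * s' ^ 2) = 4 * M := by rw [← hv]; ring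
    omega
  · intro v _
    rfl

lemma R_four (M : ℕ) : R (4 * M) = - R M := by
  unfold R
  rw [sum_Aset_four M (fun k s => w k * chi s), ← sum_neg_distrib]
  apply sum_congr rfl
  intro v _
  rw [w_two_mul, chi_two_mul]
  ring

lemma hc_three (m : ℕ) : hc (4 * m + 3) = R (3 * m + 2) := by
  rw [hc_eq]
  have : 3 * (4 * m + 3) - 1 = 4 * (3 * m + 2) := by omega
  rw [this, sum_Aset_four (3 * m + 2) (fun k s => w k * (-1) ^ k * eps s)]
  unfold R
  apply sum_congr rfl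
  intro v _
  rw [w_two_mul, eps_two_mul, pow_mul]
  simp

lemma hc_two (m : ℕ) : hc (4 * m + 2) = 0 := by
  rw [hc_eq, Aset_empty_of_mod4 (by omega), sum_empty]

lemma R_of_mod4 {M : ℕ} (h : M % 4 = 1) : R M = 0 := by
  unfold R
  rw [Aset_empty_of_mod4 h, sum_empty]

lemma R_of_mod8 {M : ℕ} (h : M % 8 = 6) : R M = 0 := by
  unfold R
  rw [Aset_empty_of_mod8 h, sum_empty]

lemma w_even {k : ℕ} (h : k ≠ 0) : (2 : ℤ) ∣ w k := by
  unfold w
  rw [if_neg h]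

lemma no_zero {m s : ℕ} (hm : ¬ 4 ∣ m) (h : 2 * s ^ 2 = 12 * m + 2) : False := by
  have h1 : s ^ 2 = 6 * m + 1 := by omega
  have h3 : s % 8 = 0 ∨ s % 8 = 1 ∨ s % 8 = 2 ∨ s % 8 = 3 ∨ s % 8 = 4 ∨ s % 8 = 5 ∨ s % 8 = 6 ∨
    s % 8 = 7 := by omega
  have h4 : s ^ 2 % 8 = (6 * m + 1) % 8 := by rw [h1]
  rcases h3 with hs | hs | hs | hs | hs | hs | hs | hs <;>
    simp [Nat.pow_mod, hs] at h4 <;> omega

lemma hc_one_even {m : ℕ} (hm : ¬ 4 ∣ m) : (2 : ℤ) ∣ hc (4 * m + 1) := by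
  rw [hc_eq]
  have : 3 * (4 * m + 1) - 1 = 12 * m + 2 := by omega
  rw [this]
  apply dvd_sum
  rintro ⟨k, s⟩ hv
  rw [mem_Aset] at hv
  apply dvd_mul_of_dvd_left
  apply dvd_mul_of_dvd_left
  apply w_even
  rintro rfl
  exact no_zero hm (by rw [← hv]; ring)

lemma R_zero_even {m : ℕ} (hm : ¬ 4 ∣ m) : (2 : ℤ) ∣ R (12 * m + 2) := by
  unfold R
  apply dvd_sum
  rintro ⟨k, s⟩ hv
  rw [mem_Aset] at hv
  apply dvd_mul_of_dvd_left
  apply w_even
  rintro rfl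
  exact no_zero hm (by rw [← hv]; ring)

lemma R_odd_even {M : ℕ} (hM : M % 2 = 1) : (2 : ℤ) ∣ R M := by
  unfold R
  apply dvd_sum
  rintro ⟨k, s⟩ hv
  rw [mem_Aset] at hv
  apply dvd_mul_of_dvd_left
  apply w_even
  rintro rfl
  have : M = 2 * s ^ 2 := by rw [← hv]; ring
  omega

/-- `R(N)/2` has the parity of the number of solutions when `N ≡ 11 (mod 24)` -/
lemma R_half {N : ℕ} (hN : N % 24 = 11) {g : ℤ} (hg : R N = 2 * g) :
    (g : ZMod 2) = ((Aset N).card : ZMod 2) := by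
  have h : R N = 2 * ∑ v ∈ Aset N, chi v.2 := by
    unfold R
    rw [mul_sum]
    apply sum_congr rfl
    rintro ⟨k, s⟩ hv
    rw [mem_Aset] at hv
    have hk : k ≠ 0 := by
      rintro rfl
      have : N = 2 * s ^ 2 := by rw [← hv]; ring
      omega
    simp only
    unfold w
    rw [if_neg hk]
  have hg' : g = ∑ v ∈ Aset N, chi v.2 := by linarith
  rw [hg']
  push_cast
  rw [card_eq_sum_ones]
  push_cast
  apply sum_congr rfl
  rintro ⟨k, s⟩ hv
  rw [mem_Aset] at hv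
  simp only
  have hs : s % 3 ≠ 0 := by
    intro h0
    obtain ⟨s', rfl⟩ : ∃ s', s = 3 * s' := ⟨s / 3, by omega⟩
    have : N = 3 * (k ^ 2 + 6 * k * s' + 6 * s' ^ 2) := by rw [← hv]; ring
    omega
  unfold chi
  split_ifs with h1 h2
  · simp
  · rw [show ((-1 : ℤ) : ZMod 2) = 1 from by decide]
  · omega

open Classical in
/-- parity of `R` -/
lemma R_parity {m : ℕ} : (R (3 * m + 2) : ZMod 2) =
    if (∃ s, 3 * m + 2 = 2 * s ^ 2) then 1 else 0 := by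
  unfold R
  push_cast
  split_ifs with h
  · obtain ⟨s, hs⟩ := h
    have hs0 : (0, s) ∈ Aset (3 * m + 2) := by rw [mem_Aset, hs]; ring
    rw [sum_eq_single_of_mem _ hs0]
    · have hs3 : s % 3 ≠ 0 := by
        intro h0
        obtain ⟨s', rfl⟩ : ∃ s', s = 3 * s' := ⟨s / 3, by omega⟩
        have : 3 * m + 2 = 3 * (6 * s' ^ 2) := by rw [hs]; ring
        omega
      simp only [w, if_true, chi]
      split_ifs with h1 h2
      · simp
      · simp only [Int.cast_one, one_mul]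
        decide
      · omega
    · rintro ⟨k', s'⟩ hv hne
      rw [mem_Aset] at hv
      have hk : k' ≠ 0 := by
        rintro rfl
        apply hne
        have : s' ^ 2 = s ^ 2 := by
          have : 2 * s' ^ 2 = 2 * s ^ 2 := by rw [← hs, ← hv]; ring
          omega
        have := Nat.pow_left_injective (by norm_num : (2 : ℕ) ≠ 0) this
        simp [this]
      simp only [w, if_neg hk]
      rw [show ((2 : ℤ) : ZMod 2) = 0 from by decide, zero_mul]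
  · apply sum_eq_zero
    rintro ⟨k', s'⟩ hv
    rw [mem_Aset] at hv
    have hk : k' ≠ 0 := by
      rintro rfl
      exact h ⟨s', by rw [← hv]; ring⟩
    simp only [w, if_neg hk]
    rw [show ((2 : ℤ) : ZMod 2) = 0 from by decide, zero_mul]

end Pool.Agent.W_MP_e258d6_nt
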