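import Mathlib

/-!
The generating function of the limiting two-colour partition function.
-/

set_option autoImplicit false

namespace Pool.Agent.W_MP_e258d6_nt

open PowerSeries
open scoped PowerSeries.WithPiTopology

/-- The `m`-th term `(-q^{2m+2};q²)_∞ q^{2m+1} / (q^{2m+1};q²)_∞²`, a formal power series. -/
noncomputable def genTerm (m : ℕ) : ℤ⟦X⟧ :=
  (∏' j : ℕ, (1 + X ^ (2 * m + 2 + 2 * j))) * X ^ (2 * m + 1) *
    Ring.inverse ((∏' j : ℕ, (1 - X ^ (2 * m + 1 + 2 * j))) ^ 2)

/-- The generating function `∑_{m ≥ 0} (-q^{2m+2};q²)_∞ q^{2m+1} / (q^{2m+1};q²)_∞²`. -/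
noncomputable def genFun : ℤ⟦X⟧ := ∑' m : ℕ, genTerm m

/-- The integers `c(n)`: the coefficients of the generating function. -/
noncomputable def c (n : ℕ) : ℤ := coeff n genFun

end Pool.Agent.W_MP_e258d6_nt
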