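import Pool.Agent.W_MP_e258d6_nt.Theta

set_option autoImplicit false

namespace Pool.Agent.W_MP_e258d6_nt

open PowerSeries Finset Parity

/-- the subseries of exponents `≡ r (mod 4)` -/
noncomputable def sec (r : ℕ) (f : ℤ⟦X⟧) : ℤ⟦X⟧ := PowerSeries.mk fun m => coeff (4 * m + r) f

lemma coeff_sec (r m : ℕ) (f : ℤ⟦X⟧) : coeff m (sec r f) = coeff (4 * m + r) f := by
  unfold sec; rw [coeff_mk]

lemma sec_add (r : ℕ) (f g : ℤ⟦X⟧) : sec r (f + g) = sec r f + sec r g := by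
  ext m; simp [coeff_sec]

lemma sec_C_mul (r : ℕ) (c : ℤ) (f : ℤ⟦X⟧) : sec r (C c * f) = C c * sec r f := by
  ext m; rw [coeff_sec, coeff_C_mul, coeff_C_mul, coeff_sec]

lemma sec_two_mul (r : ℕ) (f : ℤ⟦X⟧) : sec r (2 * f) = 2 * sec r f := by
  have h : (2 : ℤ⟦X⟧) = C 2 := by simp
  rw [h, sec_C_mul]

lemma sec_four_mul (r : ℕ) (f : ℤ⟦X⟧) : sec r (4 * f) = 4 * sec r f := by
  have h : (4 : ℤ⟦X⟧) = C 4 := by simp
  rw [h, sec_C_mul]

lemma sec_six_mul (r : ℕ) (f : ℤ⟦X⟧) : sec r (6 * f) = 6 * sec r f := by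
  have h : (6 : ℤ⟦X⟧) = C 6 := by simp
  rw [h, sec_C_mul]

lemma sec_eight_mul (r : ℕ) (f : ℤ⟦X⟧) : sec r (8 * f) = 8 * sec r f := by
  have h : (8 : ℤ⟦X⟧) = C 8 := by simp
  rw [h, sec_C_mul]

lemma sec_twelve_mul (r : ℕ) (f : ℤ⟦X⟧) : sec r (12 * f) = 12 * sec r f := by
  have h : (12 : ℤ⟦X⟧) = C 12 := by simp
  rw [h, sec_C_mul]

lemma sec_X_mul {r : ℕ} (f : ℤ⟦X⟧) : sec (r + 1) (X * f) = sec r f := by
  ext m
  rw [coeff_sec, coeff_sec, ← add_assoc, coeff_succ_X_mul]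

lemma sec_zero_X_mul (f : ℤ⟦X⟧) : sec 0 (X * f) = X * sec 3 f := by
  ext m
  rcases m with _ | m
  · rw [coeff_sec]; simp
  · rw [coeff_sec, coeff_succ_X_mul, coeff_sec]
    have : 4 * (m + 1) + 0 = 4 * m + 3 + 1 := by ring
    rw [this, coeff_succ_X_mul]

lemma sec_mul_expand {r : ℕ} (hr : r < 4) (f g : ℤ⟦X⟧) :
    sec r (f * expand 4 four_ne g) = sec r f * g := by
  ext m
  rw [coeff_sec, coeff_mul, coeff_mul]
  rw [← sum_filter_of_ne (p := fun x : ℕ × ℕ => 4 ∣ x.2)]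
  · symm
    refine sum_bij (fun x _ => (4 * x.1 + r, 4 * x.2)) ?_ ?_ ?_ ?_
    · rintro ⟨i, j⟩ h
      rw [HasAntidiagonal.mem_antidiagonal] at h
      rw [mem_filter, HasAntidiagonal.mem_antidiagonal]
      simp only at h ⊢
      exact ⟨by omega, by simp⟩
    · rintro ⟨i, j⟩ _ ⟨i', j'⟩ _ h
      simp only [Prod.mk.injEq] at h ⊢
      omega
    · rintro ⟨i, j⟩ h
      rw [mem_filter, HasAntidiagonal.mem_antidiagonal] at h
      simp only at h
      obtain ⟨h1, ⟨j', rfl⟩⟩ := h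
      refine ⟨(m - j', j'), ?_, ?_⟩
      · rw [HasAntidiagonal.mem_antidiagonal]
        simp only
        omega
      · simp only [Prod.mk.injEq, and_true]
        omega
    · rintro ⟨i, j⟩ _
      simp only
      rw [coeff_sec, coeff_expand_mul]
  · rintro ⟨i, j⟩ _ h
    simp only at h ⊢
    by_contra h2
    apply h
    rw [coeff_expand_of_not_dvd 4 four_ne g h2, mul_zero]

lemma two_eq : (2 : ℤ⟦X⟧) = C 2 := by simp
lemma four_eq : (4 : ℤ⟦X⟧) = C 4 := by simp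
lemma eight_eq : (8 : ℤ⟦X⟧) = C 8 := by simp

/-- the right-hand side -/
noncomputable def H : ℤ⟦X⟧ := PowerSeries.mk hc

/-- `∑ R(3m+2) q^m` -/
noncomputable def R3 : ℤ⟦X⟧ := PowerSeries.mk fun m => R (3 * m + 2)

lemma sec_three_H : sec 3 H = R3 := by
  ext m; rw [coeff_sec]; unfold H R3; rw [coeff_mk, coeff_mk, hc_three]

lemma sec_two_H : sec 2 H = 0 := by
  ext m; rw [coeff_sec]; unfold H; rw [coeff_mk, hc_two]; simp

lemma Sup4_sec_one_H : Sup4 (sec 1 H) := by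
  intro m hm
  rw [coeff_sec]; unfold H; rw [coeff_mk]
  exact hc_one_even hm

lemma sec_one_R3 : sec 1 R3 = 0 := by
  ext m; rw [coeff_sec]; unfold R3; rw [coeff_mk, R_of_mod4 (by omega)]; simp

lemma sec_two_R3 : sec 2 R3 = - R3 := by
  ext m
  rw [coeff_sec]; unfold R3
  have : 3 * (4 * m + 2) + 2 = 4 * (3 * m + 2) := by ring
  rw [coeff_mk, this, R_four]
  simp

lemma sec_three_R3 : ∃ g : ℤ⟦X⟧, sec 3 R3 = 2 * g := by
  have : ∀ n, (2 : ℤ) ∣ coeff n (sec 3 R3) := by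
    intro n
    rw [coeff_sec]; unfold R3; rw [coeff_mk]
    exact R_odd_even (by omega)
  obtain ⟨g, hg⟩ := exists_of_coeff_dvd 2 _ this
  exact ⟨g, by rw [hg, two_eq]⟩

lemma coeff_sec_zero_R3 (m : ℕ) : coeff m (sec 0 R3) = R (12 * m + 2) := by
  rw [coeff_sec]; unfold R3; rw [coeff_mk]; congr 1; ring

lemma sec_zero_R3_odd (m : ℕ) (hm : m % 2 = 1) : coeff m (sec 0 R3) = 0 := by
  rw [coeff_sec_zero_R3, R_of_mod8 (by omega)]

lemma Sup4_sec_zero_R3 : Sup4 (sec 0 R3) := by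
  intro m hm
  rw [coeff_sec_zero_R3]
  exact R_zero_even hm

/-! ### reduction of `c(4m+3)` -/

lemma c_reduction : ∃ g Z : ℤ⟦X⟧, Sup4 Z ∧
    sec 3 genFun = phi ^ 3 * R3 + 4 * Z + 8 * g := by
  have h1 := phiM_mul_genFun
  rw [phiM_eq] at h1
  obtain ⟨g, hg⟩ := phi_four
  set α := expand 4 four_ne phi with hα
  set β := expand 4 four_ne psi with hβ
  have hα4 : α ^ 4 = 1 + 8 * expand 4 four_ne g := by
    rw [hα, ← map_pow, hg, map_add, map_one, map_mul, map_ofNat]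
  have h2 : genFun = H * (expand 4 four_ne (phi ^ 3)) + 2 * (X * (H * expand 4 four_ne (phi ^ 2 * psi)))
      + 4 * (X * (X * (H * expand 4 four_ne (phi * psi ^ 2))))
      + 8 * (X * (X * (X * (H * β ^ 3))) - expand 4 four_ne g * genFun
        + 2 * X ^ 4 * β ^ 4 * genFun) := by
    have h3 : (H : ℤ⟦X⟧) = (α - 2 * (X * β)) * genFun := h1.symm
    simp only [map_mul, map_pow, ← hα, ← hβ]
    have h4 : genFun = α ^ 4 * genFun - 8 * expand 4 four_ne g * genFun := by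
      rw [hα4]; ring
    rw [h3]
    linear_combination h4
  have h5 := congrArg (sec 3) h2
  have e1 : sec 3 (H * (expand 4 four_ne (phi ^ 3))) = R3 * phi ^ 3 := by
    rw [sec_mul_expand (by norm_num), sec_three_H]
  have e2 : sec 3 (2 * (X * (H * expand 4 four_ne (phi ^ 2 * psi)))) = 0 := by
    rw [sec_two_mul, sec_X_mul, sec_mul_expand (by norm_num), sec_two_H]
    simp
  have e3 : sec 3 (4 * (X * (X * (H * expand 4 four_ne (phi * psi ^ 2))))) =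
      4 * (sec 1 H * (phi * psi ^ 2)) := by
    rw [sec_four_mul, sec_X_mul, sec_X_mul, sec_mul_expand (by norm_num)]
  rw [sec_add, sec_add, sec_add, e1, e2, e3, sec_eight_mul] at h5
  refine ⟨sec 3 (X * (X * (X * (H * β ^ 3))) - expand 4 four_ne g * genFun
        + 2 * X ^ 4 * β ^ 4 * genFun), sec 1 H * (phi * psi ^ 2), ?_, ?_⟩
  · exact Sup4_sec_one_H.mul (Sup4_phi.mul Sup4_psi_sq)
  · rw [h5]
    ring

/-- `E = φ³ R3` -/
noncomputable def E : ℤ⟦X⟧ := phi ^ 3 * R3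

lemma E_split : E = R3 * expand 4 four_ne (phi ^ 3) + 6 * (X * (R3 * expand 4 four_ne (phi ^ 2 * psi)))
      + 12 * (X * (X * (R3 * expand 4 four_ne (phi * psi ^ 2))))
      + 8 * (X * (X * (X * (R3 * expand 4 four_ne (psi ^ 3))))) := by
  unfold E
  simp only [map_mul, map_pow]
  conv_lhs => rw [phi_split]
  ring

lemma sec_one_E : ∃ g : ℤ⟦X⟧, sec 1 E = 6 * (psi * sec 0 R3) + 8 * g := by
  have h := congrArg (sec 1) E_split
  obtain ⟨g3, hg3⟩ := sec_three_R3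
  obtain ⟨gs, hgs⟩ := phi_sq
  have e0 : sec 1 (R3 * expand 4 four_ne (phi ^ 3)) = 0 := by
    rw [sec_mul_expand (by norm_num), sec_one_R3, zero_mul]
  have e1 : sec 1 (6 * (X * (R3 * expand 4 four_ne (phi ^ 2 * psi)))) =
      6 * (sec 0 R3 * (phi ^ 2 * psi)) := by
    rw [sec_six_mul, sec_X_mul, sec_mul_expand (by norm_num)]
  have e2 : sec 1 (12 * (X * (X * (R3 * expand 4 four_ne (phi * psi ^ 2))))) =
      12 * (X * (sec 3 R3 * (phi * psi ^ 2))) := by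
    rw [sec_twelve_mul, sec_X_mul, sec_zero_X_mul, sec_mul_expand (by norm_num)]
  rw [sec_add, sec_add, sec_add, e0, e1, e2, sec_eight_mul, hg3, hgs] at h
  refine ⟨3 * gs * psi * sec 0 R3 + 3 * X * g3 * phi * psi ^ 2 +
    sec 1 (X * (X * (X * (R3 * expand 4 four_ne (psi ^ 3))))), ?_⟩
  rw [h]
  ring

lemma sec_two_E : ∃ g Z : ℤ⟦X⟧, Sup4 Z ∧ sec 2 E = - E + 4 * Z + 8 * g := by
  have h := congrArg (sec 2) E_split
  have e0 : sec 2 (R3 * expand 4 four_ne (phi ^ 3)) = - (R3 * phi ^ 3) := by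
    rw [sec_mul_expand (by norm_num), sec_two_R3]; ring
  have e1 : sec 2 (6 * (X * (R3 * expand 4 four_ne (phi ^ 2 * psi)))) = 0 := by
    rw [sec_six_mul, sec_X_mul, sec_mul_expand (by norm_num), sec_one_R3]; ring
  have e2 : sec 2 (12 * (X * (X * (R3 * expand 4 four_ne (phi * psi ^ 2))))) =
      12 * (sec 0 R3 * (phi * psi ^ 2)) := by
    rw [sec_twelve_mul, sec_X_mul, sec_X_mul, sec_mul_expand (by norm_num)]
  rw [sec_add, sec_add, sec_add, e0, e1, e2, sec_eight_mul] at h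
  refine ⟨sec 0 R3 * (phi * psi ^ 2) + sec 2 (X * (X * (X * (R3 * expand 4 four_ne (psi ^ 3))))),
    sec 0 R3 * (phi * psi ^ 2), Sup4_sec_zero_R3.mul (Sup4_phi.mul Sup4_psi_sq), ?_⟩
  rw [h]
  unfold E
  ring

lemma coeff_psi_odd {n : ℕ} (hn : n % 2 = 1) : coeff n psi = 0 := by
  unfold psi
  rw [coeff_mk, sum_tri_of_ne]
  intro j hj
  obtain ⟨i, hi⟩ := Nat.even_mul_succ_self j
  omega

/-- `8 ∣ E_{8j+5}` -/
lemma eight_dvd_E_base (j : ℕ) : (8 : ℤ) ∣ coeff (8 * j + 5) E := by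
  obtain ⟨g, hg⟩ := sec_one_E
  have h := congrArg (coeff (2 * j + 1)) hg
  rw [coeff_sec] at h
  have h1 : 4 * (2 * j + 1) + 1 = 8 * j + 5 := by ring
  have h6 : (6 : ℤ⟦X⟧) = C 6 := by simp
  have h8 : (8 : ℤ⟦X⟧) = C 8 := by simp
  rw [h1, map_add, h6, h8, coeff_C_mul, coeff_C_mul] at h
  have h2 : coeff (2 * j + 1) (psi * sec 0 R3) = 0 := by
    rw [coeff_mul]
    apply sum_eq_zero
    rintro ⟨a, b⟩ hab
    rw [HasAntidiagonal.mem_antidiagonal] at hab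
    simp only at hab ⊢
    by_cases ha : a % 2 = 1
    · rw [coeff_psi_odd ha, zero_mul]
    · rw [sec_zero_R3_odd b (by omega), mul_zero]
  rw [h, h2]
  exact ⟨_, by ring⟩

lemma dvd_coeff_of {d : ℤ} {f g : ℤ⟦X⟧} (h : f = C d * g) (n : ℕ) : d ∣ coeff n f := by
  rw [h, coeff_C_mul]; exact dvd_mul_right _ _

/-- the induction step modulo 8 -/
lemma eight_step (m : ℕ) (hm : ¬ 4 ∣ m) : (8 : ℤ) ∣ coeff (4 * m + 2) E + coeff m E := by
  obtain ⟨g, Z, hZ, hg⟩ := sec_two_E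
  have h := congrArg (coeff m) hg
  rw [coeff_sec] at h
  have h4 : (4 : ℤ⟦X⟧) = C 4 := by simp
  have h8 : (8 : ℤ⟦X⟧) = C 8 := by simp
  rw [map_add, map_add, map_neg, h4, h8, coeff_C_mul, coeff_C_mul] at h
  obtain ⟨z, hz⟩ := hZ m hm
  rw [h, hz]
  exact ⟨z + coeff m g, by ring⟩

/-- `c(4m+3) ≡ E_m (mod 8)` for `4 ∤ m` -/
lemma c_mod_eight (m : ℕ) (hm : ¬ 4 ∣ m) : (8 : ℤ) ∣ c (4 * m + 3) - coeff m E := by
  obtain ⟨g, Z, hZ, hg⟩ := c_reduction
  have h := congrArg (coeff m) hg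
  rw [coeff_sec] at h
  have h4 : (4 : ℤ⟦X⟧) = C 4 := by simp
  have h8 : (8 : ℤ⟦X⟧) = C 8 := by simp
  rw [map_add, map_add, h4, h8, coeff_C_mul, coeff_C_mul] at h
  obtain ⟨z, hz⟩ := hZ m hm
  unfold c E
  rw [h, hz]
  exact ⟨z + coeff m g, by ring⟩

lemma c_mod_four (m : ℕ) : (4 : ℤ) ∣ c (4 * m + 3) - coeff m E := by
  obtain ⟨g, Z, hZ, hg⟩ := c_reduction
  have h := congrArg (coeff m) hg
  rw [coeff_sec] at h
  have h4 : (4 : ℤ⟦X⟧) = C 4 := by simp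
  have h8 : (8 : ℤ⟦X⟧) = C 8 := by simp
  rw [map_add, map_add, h4, h8, coeff_C_mul, coeff_C_mul] at h
  unfold c E
  rw [h]
  exact ⟨coeff m Z + 2 * coeff m g, by ring⟩

/-- `8 ∣ E_m` when `3m + 2 = 4^k (24 j + 17)` -/
lemma eight_dvd_E (k : ℕ) : ∀ j m : ℕ, 3 * m + 2 = 4 ^ k * (24 * j + 17) → (8 : ℤ) ∣ coeff m E := by
  induction k with
  | zero =>
    intro j m h
    have : m = 8 * j + 5 := by omega
    rw [this]
    exact eight_dvd_E_base j
  | succ k ih =>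
    intro j m h
    have h1 : 3 * m + 2 = 4 * (4 ^ k * (24 * j + 17)) := by rw [h, pow_succ]; ring
    obtain ⟨m', rfl⟩ : ∃ m', m = 4 * m' + 2 := ⟨m / 4, by omega⟩
    have h2 : 3 * m' + 2 = 4 ^ k * (24 * j + 17) := by omega
    have h3 := ih j m' h2
    have h4 : ¬ 4 ∣ m' := by
      rintro ⟨t, rfl⟩
      rcases k with _ | k
      · omega
      · have : 4 ^ (k + 1) * (24 * j + 17) = 4 * (4 ^ k * (24 * j + 17)) := by rw [pow_succ]; ring
        omega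
    have h5 := eight_step m' h4
    exact (dvd_add_left h3).mp h5

end Pool.Agent.W_MP_e258d6_nt
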