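import Pool.Agent.W_MP_e258d6_nt.Dissect

set_option autoImplicit false

namespace Pool.Agent.W_MP_e258d6_nt

open PowerSeries Finset Parity

/-- `φ R3` -/
noncomputable def E4 : ℤ⟦X⟧ := phi * R3

lemma E4_split : E4 = R3 * expand 4 four_ne phi + 2 * (X * (R3 * expand 4 four_ne psi)) := by
  unfold E4
  conv_lhs => rw [phi_split]
  ring

lemma E_sub_E4 (m : ℕ) : (4 : ℤ) ∣ coeff m E - coeff m E4 := by
  obtain ⟨g, hg⟩ := phi_sq
  have h : E = E4 + C 4 * (g * phi * R3) := by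
    unfold E E4
    have h4 : (C (4 : ℤ) : ℤ⟦X⟧) = 4 := by simp
    have : phi ^ 3 = phi * phi ^ 2 := by ring
    rw [this, hg, h4]; ring
  rw [h, map_add, coeff_C_mul]
  exact ⟨coeff m (g * phi * R3), by ring⟩

lemma sec_two_E4 : sec 2 E4 = - E4 := by
  rw [E4_split, sec_add, sec_mul_expand (by norm_num), sec_two_R3, sec_two_mul, sec_X_mul,
    sec_mul_expand (by norm_num), sec_one_R3, ← E4_split]
  unfold E4
  ring

lemma sec_zero_E4 : ∃ g : ℤ⟦X⟧, sec 0 E4 = sec 0 R3 * phi + C 4 * g := by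
  obtain ⟨g3, hg3⟩ := sec_three_R3
  refine ⟨X * (g3 * psi), ?_⟩
  rw [E4_split, sec_add, sec_mul_expand (by norm_num), sec_two_mul, sec_zero_X_mul,
    sec_mul_expand (by norm_num), hg3]
  have h4 : (C (4 : ℤ) : ℤ⟦X⟧) = 4 := by simp
  rw [h4]
  ring

lemma sec_three_E4 {g3 : ℤ⟦X⟧} (hg3 : sec 3 R3 = 2 * g3) :
    sec 3 E4 = C 2 * (g3 * phi + R3 * psi) + C 4 * (- R3 * psi) := by
  have h4 : (C (4 : ℤ) : ℤ⟦X⟧) = 4 := by simp
  have h2 : (C (2 : ℤ) : ℤ⟦X⟧) = 2 := by simp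
  rw [E4_split, sec_add, sec_mul_expand (by norm_num), sec_two_mul, sec_X_mul,
    sec_mul_expand (by norm_num), hg3, sec_two_R3, h4, h2]
  ring

lemma coeff_phi_of_mod4 {n : ℕ} (hn : n % 4 = 3) : coeff n phi = 0 := by
  unfold phi
  rw [coeff_mk]
  apply sum_sq_of_ne
  intro j hj
  have h4 : j ^ 2 % 4 = 3 := by omega
  have : j % 4 = 0 ∨ j % 4 = 1 ∨ j % 4 = 2 ∨ j % 4 = 3 := by omega
  rcases this with h5 | h5 | h5 | h5 <;> simp [Nat.pow_mod, h5] at h4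

lemma coeff_phi_even {n : ℕ} (hn : n ≠ 0) : (2 : ℤ) ∣ coeff n phi := by
  obtain ⟨g, hg⟩ := phi_mod_two
  have h2 : (2 : ℤ⟦X⟧) = C 2 := by simp
  rw [hg, map_add, coeff_one, if_neg hn, h2, coeff_C_mul]
  exact ⟨_, by ring⟩

/-- `4 ∣ (φR3)_{16j+12}` -/
lemma four_dvd_base1 (j : ℕ) : (4 : ℤ) ∣ coeff (16 * j + 12) E4 := by
  obtain ⟨g, hg⟩ := sec_zero_E4
  have h := congrArg (coeff (4 * j + 3)) hg
  rw [coeff_sec] at h
  have h1 : 4 * (4 * j + 3) + 0 = 16 * j + 12 := by ring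
  rw [h1, map_add, coeff_C_mul] at h
  rw [h]
  refine dvd_add ?_ (dvd_mul_right _ _)
  rw [coeff_mul]
  apply dvd_sum
  rintro ⟨a, b⟩ hab
  rw [HasAntidiagonal.mem_antidiagonal] at hab
  simp only at hab ⊢
  by_cases ha : a % 2 = 1
  · rw [sec_zero_R3_odd a ha, zero_mul]
    exact dvd_zero _
  · by_cases hb : b % 4 = 3
    · rw [coeff_phi_of_mod4 hb, mul_zero]
      exact dvd_zero _
    · have h3 : (4 : ℤ) = 2 * 2 := by norm_num
      rw [h3]
      apply mul_dvd_mul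
      · exact Sup4_sec_zero_R3 a (by omega)
      · exact coeff_phi_even (by omega)

open Classical in
lemma psi_parity (b : ℕ) : ((coeff b psi : ℤ) : ZMod 2) = if (∃ i, b = i * (i + 1)) then 1 else 0 := by
  unfold psi
  rw [coeff_mk]
  split_ifs with h
  · obtain ⟨i, hi⟩ := h
    rw [sum_tri_of_eq hi.symm]; simp
  · push Not at h
    rw [sum_tri_of_ne (fun i hi => h i hi.symm)]; simp

lemma tri_inj {i i' : ℕ} (h : i * (i + 1) = i' * (i' + 1)) : i = i' := by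
  rcases lt_trichotomy i i' with h3 | h3 | h3
  · nlinarith
  · exact h3
  · nlinarith

/-- shape of the elements of `Bset' (24j+11)` -/
lemma B_shape {j u y : ℕ} (h : 3 * u ^ 2 + 2 * y ^ 2 = 24 * j + 11) :
    ∃ i s, u = 2 * i + 1 ∧ y = 2 * s ∧ 3 * (i * (i + 1)) + 2 * s ^ 2 = 6 * j + 2 := by
  have hu : u % 2 = 1 := by
    by_contra h6
    obtain ⟨i, rfl⟩ : ∃ i, u = 2 * i := ⟨u / 2, by omega⟩
    have : 2 * (6 * i ^ 2 + y ^ 2) = 24 * j + 11 := by rw [← h]; ring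
    omega
  obtain ⟨i, rfl⟩ : ∃ i, u = 2 * i + 1 := ⟨u / 2, by omega⟩
  obtain ⟨t, ht⟩ : ∃ t, i * (i + 1) = 2 * t := by
    obtain ⟨t, ht⟩ := Nat.even_mul_succ_self i
    exact ⟨t, by omega⟩
  have h1 : 3 * (8 * t + 1) + 2 * y ^ 2 = 24 * j + 11 := by
    rw [← h]
    have : (2 * i + 1) ^ 2 = 4 * (i * (i + 1)) + 1 := by ring
    rw [this, ht]; ring
  have hy : y % 2 = 0 := by
    by_contra h6
    obtain ⟨s, rfl⟩ : ∃ s, y = 2 * s + 1 := ⟨y / 2, by omega⟩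
    have : (2 * s + 1) ^ 2 = 4 * (s * (s + 1)) + 1 := by ring
    rw [this] at h1
    omega
  obtain ⟨s, rfl⟩ : ∃ s, y = 2 * s := ⟨y / 2, by omega⟩
  refine ⟨i, s, rfl, rfl, ?_⟩
  have h2 : (2 * s) ^ 2 = 4 * s ^ 2 := by ring
  rw [h2] at h1
  rw [ht]
  omega

lemma coeff_R3_psi (j : ℕ) :
    ((coeff (2 * j) (R3 * psi) : ℤ) : ZMod 2) = ((Bset' (24 * j + 11)).card : ZMod 2) := by
  classical
  rw [coeff_mul, Int.cast_sum]
  have h1 : ∀ x ∈ antidiagonal (2 * j), ((coeff x.1 R3 * coeff x.2 psi : ℤ) : ZMod 2) =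
      if ((∃ s, 3 * x.1 + 2 = 2 * s ^ 2) ∧ (∃ i, x.2 = i * (i + 1))) then 1 else 0 := by
    rintro ⟨a, b⟩ _
    simp only
    rw [Int.cast_mul, psi_parity]
    have : coeff a R3 = R (3 * a + 2) := by unfold R3; rw [coeff_mk]
    rw [this, R_parity]
    by_cases h1 : (∃ s, 3 * a + 2 = 2 * s ^ 2) <;> by_cases h2 : (∃ i, b = i * (i + 1)) <;>
      simp [h1, h2]
  rw [sum_congr rfl h1, sum_boole]
  congr 1
  symm
  refine card_bij (fun v _ => (2 * j - (v.1 / 2) * (v.1 / 2 + 1), (v.1 / 2) * (v.1 / 2 + 1))) ?_ ?_ ?_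
  · rintro ⟨u, y⟩ hv
    rw [mem_Bset'] at hv
    obtain ⟨i, s, rfl, rfl, h⟩ := B_shape hv
    have h2 : (2 * i + 1) / 2 = i := by omega
    simp only [h2]
    rw [mem_filter, HasAntidiagonal.mem_antidiagonal]
    simp only
    refine ⟨by omega, ⟨s, by omega⟩, ⟨i, rfl⟩⟩
  · rintro ⟨u, y⟩ hv ⟨u', y'⟩ hv' heq
    rw [mem_Bset'] at hv hv'
    obtain ⟨i, s, rfl, rfl, h⟩ := B_shape hv
    obtain ⟨i', s', rfl, rfl, h'⟩ := B_shape hv'
    have h2 : (2 * i + 1) / 2 = i := by omega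
    have h2' : (2 * i' + 1) / 2 = i' := by omega
    simp only [h2, h2', Prod.mk.injEq] at heq
    have h3 := tri_inj heq.2
    subst h3
    have h4 : s ^ 2 = s' ^ 2 := by omega
    have h5 := Nat.pow_left_injective (by norm_num : (2 : ℕ) ≠ 0) h4
    rw [h5]
  · rintro ⟨a, b⟩ hab
    rw [mem_filter, HasAntidiagonal.mem_antidiagonal] at hab
    simp only at hab
    obtain ⟨hab, ⟨s, hs⟩, ⟨i, hi⟩⟩ := hab
    refine ⟨(2 * i + 1, 2 * s), ?_, ?_⟩
    · rw [mem_Bset']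
      have e1 : (2 * i + 1) ^ 2 = 4 * (i * (i + 1)) + 1 := by ring
      have e2 : (2 * s) ^ 2 = 4 * s ^ 2 := by ring
      rw [e1, e2, ← hi]
      omega
    · have h2 : (2 * i + 1) / 2 = i := by omega
      simp only [h2, Prod.mk.injEq]
      rw [← hi]
      exact ⟨by omega, rfl⟩

/-- `4 ∣ (φR3)_{8j+3}` -/
lemma four_dvd_base2 (j : ℕ) : (4 : ℤ) ∣ coeff (8 * j + 3) E4 := by
  obtain ⟨g3, hg3⟩ := sec_three_R3
  have h := congrArg (coeff (2 * j)) (sec_three_E4 hg3)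
  rw [coeff_sec] at h
  have h1 : 4 * (2 * j) + 3 = 8 * j + 3 := by ring
  rw [h1, map_add, coeff_C_mul, coeff_C_mul] at h
  rw [h]
  refine dvd_add ?_ (dvd_mul_right _ _)
  have h3 : (4 : ℤ) = 2 * 2 := by norm_num
  rw [h3]
  apply mul_dvd_mul_left
  -- coefficient of `g3`
  have hR : R (24 * j + 11) = 2 * coeff (2 * j) g3 := by
    have h5 := congrArg (coeff (2 * j)) hg3
    have h2 : (2 : ℤ⟦X⟧) = C 2 := by simp
    rw [coeff_sec, h2, coeff_C_mul, h1] at h5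
    rw [← h5]
    unfold R3
    rw [coeff_mk]
    congr 1
    ring
  have hg := R_half (N := 24 * j + 11) (by omega) hR
  rw [card_A_eq_card_B _ (by omega), ← coeff_R3_psi] at hg
  obtain ⟨g, hgphi⟩ := phi_mod_two
  have h6 : g3 * phi = g3 + C 2 * (g3 * g) := by
    have h2 : (C (2 : ℤ) : ℤ⟦X⟧) = 2 := by simp
    rw [hgphi, h2]; ring
  rw [h6, map_add, map_add, coeff_C_mul]
  have h7 : (2 : ℤ) ∣ coeff (2 * j) g3 - coeff (2 * j) (R3 * psi) := by
    have : (((coeff (2 * j) g3 - coeff (2 * j) (R3 * psi) : ℤ)) : ZMod 2) = 0 := by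
      rw [Int.cast_sub, hg, sub_self]
    exact (ZMod.intCast_zmod_eq_zero_iff_dvd _ 2).mp this
  obtain ⟨z, hz⟩ := h7
  refine ⟨z + coeff (2 * j) (g3 * g) + coeff (2 * j) (R3 * psi), ?_⟩
  linear_combination hz

lemma four_step (m : ℕ) : coeff (4 * m + 2) E4 = - coeff m E4 := by
  have h := congrArg (coeff m) sec_two_E4
  rwa [coeff_sec, map_neg] at h

/-- `4 ∣ (φR3)_m` when `3m+2 = 4^k (24j+11)` -/
lemma four_dvd_E4_a (k : ℕ) : ∀ j m : ℕ, 3 * m + 2 = 4 ^ k * (24 * j + 11) → (4 : ℤ) ∣ coeff m E4 := by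
  induction k with
  | zero =>
    intro j m h
    have : m = 8 * j + 3 := by omega
    rw [this]
    exact four_dvd_base2 j
  | succ k ih =>
    intro j m h
    have h1 : 3 * m + 2 = 4 * (4 ^ k * (24 * j + 11)) := by rw [h, pow_succ]; ring
    obtain ⟨m', rfl⟩ : ∃ m', m = 4 * m' + 2 := ⟨m / 4, by omega⟩
    have h2 : 3 * m' + 2 = 4 ^ k * (24 * j + 11) := by omega
    rw [four_step]
    exact (ih j m' h2).neg_right

/-- `4 ∣ (φR3)_m` when `3m+2 = 4^k (48j+38)` -/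
lemma four_dvd_E4_b (k : ℕ) : ∀ j m : ℕ, 3 * m + 2 = 4 ^ k * (48 * j + 38) → (4 : ℤ) ∣ coeff m E4 := by
  induction k with
  | zero =>
    intro j m h
    have : m = 16 * j + 12 := by omega
    rw [this]
    exact four_dvd_base1 j
  | succ k ih =>
    intro j m h
    have h1 : 3 * m + 2 = 4 * (4 ^ k * (48 * j + 38)) := by rw [h, pow_succ]; ring
    obtain ⟨m', rfl⟩ : ∃ m', m = 4 * m' + 2 := ⟨m / 4, by omega⟩
    have h2 : 3 * m' + 2 = 4 ^ k * (48 * j + 38) := by omega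
    rw [four_step]
    exact (ih j m' h2).neg_right

/-! ### the three families -/

lemma four_pow_mod (k : ℕ) : 4 ^ k % 3 = 1 := by
  induction k with
  | zero => rfl
  | succ k ih => rw [pow_succ]; omega

theorem family_one (k : ℕ) (hk : 1 ≤ k) (n : ℕ) :
    (4 : ℤ) ∣ c (2 ^ (2 * k + 3) * n + (11 * 4 ^ k + 1) / 3) := by
  obtain ⟨l, rfl⟩ : ∃ l, k = l + 1 := ⟨k - 1, by omega⟩
  have h4 := four_pow_mod l
  have e1 : 2 ^ (2 * (l + 1) + 3) = 32 * 4 ^ l := by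
    rw [show (4 : ℕ) = 2 ^ 2 by norm_num, ← pow_mul]; ring
  have e2 : 4 ^ (l + 1) = 4 * 4 ^ l := by ring
  rw [e1, e2]
  set P := 4 ^ l with hP
  have hP1 : 1 ≤ P := Nat.one_le_pow _ _ (by norm_num)
  obtain ⟨m, hm⟩ : ∃ m, 3 * m + 2 = P * (24 * n + 11) := by
    have : P * (24 * n + 11) = 3 * (8 * P * n + 3 * P) + 2 * P := by ring
    refine ⟨(8 * P * n + 3 * P) + (2 * P - 2) / 3, ?_⟩
    rw [this]
    omega
  have h5 : 32 * P * n + (11 * (4 * P) + 1) / 3 = 4 * m + 3 := by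
    have h6 : P * (24 * n + 11) = 24 * (P * n) + 11 * P := by ring
    have h7 : 32 * P * n = 32 * (P * n) := by ring
    rw [h7]
    rw [h6] at hm
    omega
  rw [h5]
  have h8 := c_mod_four m
  have h9 := E_sub_E4 m
  have h10 := four_dvd_E4_a l n m hm
  have h11 := dvd_add (dvd_add h8 h9) h10
  have h12 : c (4 * m + 3) - coeff m E + (coeff m E - coeff m E4) + coeff m E4 = c (4 * m + 3) := by
    ring
  rwa [h12] at h11

theorem family_two (k : ℕ) (hk : 1 ≤ k) (n : ℕ) :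
    (8 : ℤ) ∣ c (2 ^ (2 * k + 3) * n + (17 * 4 ^ k + 1) / 3) := by
  obtain ⟨l, rfl⟩ : ∃ l, k = l + 1 := ⟨k - 1, by omega⟩
  have h4 := four_pow_mod l
  have e1 : 2 ^ (2 * (l + 1) + 3) = 32 * 4 ^ l := by
    rw [show (4 : ℕ) = 2 ^ 2 by norm_num, ← pow_mul]; ring
  have e2 : 4 ^ (l + 1) = 4 * 4 ^ l := by ring
  rw [e1, e2]
  have hP0 : 4 ^ l = 1 ∨ ∃ t, 4 ^ l = 4 * t := by
    rcases l with _ | l
    · left; rfl
    · right; exact ⟨4 ^ l, by rw [pow_succ]; ring⟩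
  set P := 4 ^ l with hP
  have hP1 : 1 ≤ P := Nat.one_le_pow _ _ (by norm_num)
  obtain ⟨m, hm⟩ : ∃ m, 3 * m + 2 = P * (24 * n + 17) := by
    have : P * (24 * n + 17) = 3 * (8 * P * n + 5 * P) + 2 * P := by ring
    refine ⟨(8 * P * n + 5 * P) + (2 * P - 2) / 3, ?_⟩
    rw [this]
    omega
  have h6 : P * (24 * n + 17) = 24 * (P * n) + 17 * P := by ring
  have h5 : 32 * P * n + (17 * (4 * P) + 1) / 3 = 4 * m + 3 := by
    have h7 : 32 * P * n = 32 * (P * n) := by ring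
    rw [h7]
    rw [h6] at hm
    omega
  rw [h5]
  have hm4 : ¬ 4 ∣ m := by
    rintro ⟨t, rfl⟩
    rcases hP0 with h0 | ⟨t', ht'⟩
    · rw [h0] at hm; omega
    · rw [ht'] at hm
      have : 4 * t' * (24 * n + 17) = 4 * (t' * (24 * n + 17)) := by ring
      omega
  have h8 := c_mod_eight m hm4
  have h10 := eight_dvd_E l n m hm
  have h11 := dvd_add h8 h10
  have h12 : c (4 * m + 3) - coeff m E + coeff m E = c (4 * m + 3) := by
    ring
  rwa [h12] at h11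

theorem family_three (k : ℕ) (hk : 1 ≤ k) (n : ℕ) :
    (4 : ℤ) ∣ c (2 ^ (2 * k + 4) * n + (38 * 4 ^ k + 1) / 3) := by
  obtain ⟨l, rfl⟩ : ∃ l, k = l + 1 := ⟨k - 1, by omega⟩
  have h4 := four_pow_mod l
  have e1 : 2 ^ (2 * (l + 1) + 4) = 64 * 4 ^ l := by
    rw [show (4 : ℕ) = 2 ^ 2 by norm_num, ← pow_mul]; ring
  have e2 : 4 ^ (l + 1) = 4 * 4 ^ l := by ring
  rw [e1, e2]
  set P := 4 ^ l with hP
  have hP1 : 1 ≤ P := Nat.one_le_pow _ _ (by norm_num)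
  obtain ⟨m, hm⟩ : ∃ m, 3 * m + 2 = P * (48 * n + 38) := by
    have : P * (48 * n + 38) = 3 * (16 * P * n + 12 * P) + 2 * P := by ring
    refine ⟨(16 * P * n + 12 * P) + (2 * P - 2) / 3, ?_⟩
    rw [this]
    omega
  have h5 : 64 * P * n + (38 * (4 * P) + 1) / 3 = 4 * m + 3 := by
    have h6 : P * (48 * n + 38) = 48 * (P * n) + 38 * P := by ring
    have h7 : 64 * P * n = 64 * (P * n) := by ring
    rw [h7]
    rw [h6] at hm
    omega
  rw [h5]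
  have h8 := c_mod_four m
  have h9 := E_sub_E4 m
  have h10 := four_dvd_E4_b l n m hm
  have h11 := dvd_add (dvd_add h8 h9) h10
  have h12 : c (4 * m + 3) - coeff m E + (coeff m E - coeff m E4) + coeff m E4 = c (4 * m + 3) := by
    ring
  rwa [h12] at h11

end Pool.Agent.W_MP_e258d6_nt
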