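import Pool.Agent.W_MP_e258d6_nt.Products

set_option autoImplicit false

namespace Pool.Agent.W_MP_e258d6_nt

open PowerSeries Finset

/-- `(q²;q²)_n` -/
noncomputable def Dn (n : ℕ) : ℤ⟦X⟧ := ∏ i ∈ range n, (1 - X ^ (2 * i + 2))

/-- `(q;q²)_n` -/
noncomputable def Pn (n : ℕ) : ℤ⟦X⟧ := ∏ i ∈ range n, (1 - X ^ (2 * i + 1))

lemma Dn_succ (n : ℕ) : Dn (n + 1) = Dn n * (1 - X ^ (2 * n + 2)) := by
  unfold Dn; rw [prod_range_succ]

lemma Pn_succ (n : ℕ) : Pn (n + 1) = Pn n * (1 - X ^ (2 * n + 1)) := by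
  unfold Pn; rw [prod_range_succ]

lemma En_zero (n : ℕ) : En 0 = Dn n * En n := by
  induction n with
  | zero => simp [Dn]
  | succ n ih => rw [ih, En_succ n, Dn_succ]; ring

lemma On_zero (n : ℕ) : On 0 = Pn n * On n := by
  induction n with
  | zero => simp [Pn]
  | succ n ih => rw [ih, On_succ n, Pn_succ]; ring

/-- `1/(q²;q²)_∞` -/
noncomputable def ie : ℤ⟦X⟧ := Ring.inverse (En 0)

lemma En_mul_ie : En 0 * ie = 1 := Ring.mul_inverse_cancel _ (isUnit_En 0)

/-- q-binomial coefficients `[2m; m+k]` in base `q²` -/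
noncomputable def G (m k : ℕ) : ℤ⟦X⟧ :=
  if k ≤ m then Dn (2 * m) * En (m - k) * En (m + k) * ie ^ 2 else 0

lemma G_zero_of_lt {m k : ℕ} (h : m < k) : G m k = 0 := by
  unfold G; rw [if_neg (by omega)]

lemma G_add (k u : ℕ) : G (k + u) k = Dn (2 * (k + u)) * En u * En (2 * k + u) * ie ^ 2 := by
  unfold G
  rw [if_pos (by omega)]
  have h1 : k + u - k = u := by omega
  have h2 : k + u + k = 2 * k + u := by omega
  rw [h1, h2]

lemma G_add_one (k u : ℕ) :
    G (k + u) (k + 1) = Dn (2 * (k + u)) * (1 - X ^ (2 * u)) * En u * En (2 * k + u + 1) * ie ^ 2 := by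
  unfold G
  rcases u with _ | u
  · rw [if_neg (by omega)]
    simp
  · rw [if_pos (by omega)]
    have h1 : k + (u + 1) - (k + 1) = u := by omega
    have h2 : k + (u + 1) + (k + 1) = 2 * k + (u + 1) + 1 := by omega
    rw [h1, h2, En_succ u]
    ring

lemma G_add_two (k u : ℕ) :
    G (k + u) (k + 2) = Dn (2 * (k + u)) * ((1 - X ^ (2 * u)) * (1 - X ^ (2 * u - 2))) * En u *
      En (2 * k + u + 2) * ie ^ 2 := by
  unfold G
  rcases u with _ | _ | u
  · rw [if_neg (by omega)]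
    simp
  · rw [if_neg (by omega)]
    simp
  · rw [if_pos (by omega)]
    have h1 : k + (u + 1 + 1) - (k + 2) = u := by omega
    have h2 : k + (u + 1 + 1) + (k + 2) = 2 * k + (u + 1 + 1) + 2 := by omega
    have h3 : 2 * (u + 1 + 1) - 2 = 2 * u + 2 := by omega
    rw [h1, h2, h3, En_succ u, En_succ (u + 1)]
    ring

lemma G_rec (m k : ℕ) (hk : k ≤ m) :
    G (m + 1) (k + 1) = (1 + X ^ (4 * m + 2)) * G m (k + 1) + X ^ (2 * (m - k)) * G m k
      + X ^ (2 * (m + k + 2)) * G m (k + 2) := by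
  obtain ⟨u, rfl⟩ := Nat.exists_eq_add_of_le hk
  have e1 : k + u + 1 = (k + 1) + u := by ring
  have e2 : k + u - k = u := by omega
  rw [e1, G_add (k + 1) u, G_add k u, G_add_one, G_add_two, e2]
  have e3 : 2 * (k + 1 + u) = 2 * (k + u) + 1 + 1 := by ring
  have e4 : 2 * (k + 1) + u = 2 * k + u + 2 := by ring
  rw [e3, Dn_succ, Dn_succ, e4, En_succ (2 * k + u), En_succ (2 * k + u + 1)]
  have e5 : 2 * k + u + 1 + 1 = 2 * k + u + 2 := rfl
  rw [e5]
  rcases u with _ | u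
  · ring
  · have e6 : 2 * (u + 1) - 2 = 2 * u := by omega
    rw [e6]
    ring

lemma G_rec_zero (m : ℕ) :
    G (m + 1) 0 = (1 + X ^ (4 * m + 2)) * G m 0 + 2 * X ^ (2 * m + 2) * G m 1 := by
  have h1 := G_add 0 (m + 1)
  have h2 := G_add 0 m
  have h3 := G_add_one 0 m
  simp only [zero_add, mul_zero] at h1 h2 h3
  rw [h1, h2, h3]
  have e3 : 2 * (m + 1) = 2 * m + 1 + 1 := by ring
  rw [e3, Dn_succ, Dn_succ, En_succ m]
  ring

/-- weight of `k` -/
def w (k : ℕ) : ℤ := if k = 0 then 1 else 2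

/-- `w_k (-1)^k q^{k²}` -/
noncomputable def a (k : ℕ) : ℤ⟦X⟧ := C (w k * (-1) ^ k) * X ^ (k ^ 2)

lemma a_zero : a 0 = 1 := by simp [a, w]

lemma a_succ (k : ℕ) : a (k + 1) = 2 * (-1) ^ (k + 1) * X ^ ((k + 1) ^ 2) := by
  unfold a w
  rw [if_neg (Nat.succ_ne_zero k)]
  simp

lemma jtp_step (m : ℕ) : ∀ L ≤ m + 1,
    ∑ k ∈ range (L + 1), a k * G (m + 1) k
      - (1 - X ^ (2 * m + 1)) ^ 2 * ∑ k ∈ range (L + 1), a k * G m k =
    2 * (-1) ^ L * X ^ (2 * m + 1) * (X ^ (L ^ 2) * G m L + X ^ ((L + 1) ^ 2) * G m (L + 1)) := by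
  intro L
  induction L with
  | zero =>
    intro _
    simp only [zero_add, range_one, sum_singleton, a_zero, one_mul, G_rec_zero, pow_zero]
    ring
  | succ L ih =>
    intro hL
    have ih' := ih (by omega)
    rw [sum_range_succ, sum_range_succ (fun k => a k * G m k) (L + 1)]
    rw [G_rec m L (by omega), a_succ]
    have hexp : (X : ℤ⟦X⟧) ^ ((L + 1) ^ 2) * X ^ (2 * (m - L)) = X ^ (2 * m + 1) * X ^ (L ^ 2) := by
      rw [← pow_add, ← pow_add]
      congr 1
      have : L ≤ m := by omega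
      obtain ⟨d, rfl⟩ := Nat.exists_eq_add_of_le this
      have : L + d - L = d := by omega
      rw [this]
      ring
    have hexp2 : (X : ℤ⟦X⟧) ^ ((L + 1) ^ 2) * X ^ (2 * (m + L + 2)) =
        X ^ (2 * m + 1) * X ^ ((L + 1 + 1) ^ 2) := by
      rw [← pow_add, ← pow_add]
      congr 1
      ring
    have hp : ((-1 : ℤ⟦X⟧)) ^ (L + 1) = - (-1) ^ L := by ring
    rw [hp]
    linear_combination ih' - 2 * (-1) ^ L * G m L * hexp - 2 * (-1) ^ L * G m (L + 2) * hexp2

lemma G_zero_zero : G 0 0 = 1 := by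
  have := G_add 0 0
  simp only [add_zero, mul_zero] at this
  rw [this]
  have h := En_mul_ie
  simp only [Dn, range_zero, prod_empty, one_mul]
  linear_combination (En 0 * ie + 1) * h

lemma jtp (m : ℕ) : Pn m ^ 2 = ∑ k ∈ range (m + 1), a k * G m k := by
  induction m with
  | zero => simp [Pn, a_zero, G_zero_zero]
  | succ m ih =>
    have h := jtp_step m (m + 1) le_rfl
    rw [G_zero_of_lt (show m < m + 1 by omega), G_zero_of_lt (show m < m + 1 + 1 by omega)] at h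
    rw [sum_range_succ (fun k => a k * G m k) (m + 1), G_zero_of_lt (show m < m + 1 by omega),
      ← ih] at h
    rw [Pn_succ]
    linear_combination -h

/-- the summands for fixed `k` -/
noncomputable def T (m k : ℕ) : ℤ⟦X⟧ := X ^ (2 * m) * Nn m * En 0 * G m k

/-- partial sums -/
noncomputable def B (M k : ℕ) : ℤ⟦X⟧ := ∑ m ∈ range M, T m k

lemma B_zero_of_le {M k : ℕ} (h : M ≤ k) : B M k = 0 := by
  unfold B
  apply sum_eq_zero
  intro m hm
  rw [mem_range] at hm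
  unfold T
  rw [G_zero_of_lt (by omega), mul_zero]

lemma B_rec (k u : ℕ) : B (k + u) k + X ^ (6 * k + 6) * B (k + u) (k + 2) =
    X ^ (2 * k) * (1 + X ^ (2 * k + 2)) * (Nn (k + u) * Dn (2 * (k + u)) * (1 - X ^ (2 * u)) * En u *
      En (2 * k + u + 1) * ie) := by
  induction u with
  | zero =>
    rw [add_zero, B_zero_of_le le_rfl, B_zero_of_le (by omega)]
    simp
  | succ u ih =>
    have hB : ∀ j, B (k + (u + 1)) j = B (k + u) j + T (k + u) j := by
      intro j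
      unfold B
      rw [show k + (u + 1) = k + u + 1 by ring, sum_range_succ]
    rw [hB, hB]
    have hT1 : T (k + u) k = X ^ (2 * (k + u)) * Nn (k + u) * (Dn (2 * (k + u)) * En u *
        En (2 * k + u) * ie) := by
      unfold T
      rw [G_add]
      linear_combination X ^ (2 * (k + u)) * Nn (k + u) * (Dn (2 * (k + u)) * En u *
        En (2 * k + u) * ie) * En_mul_ie
    have hT2 : T (k + u) (k + 2) = X ^ (2 * (k + u)) * Nn (k + u) * (Dn (2 * (k + u)) *
        ((1 - X ^ (2 * u)) * (1 - X ^ (2 * u - 2))) * En u * En (2 * k + u + 2) * ie) := by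
      unfold T
      rw [G_add_two]
      linear_combination X ^ (2 * (k + u)) * Nn (k + u) * (Dn (2 * (k + u)) *
        ((1 - X ^ (2 * u)) * (1 - X ^ (2 * u - 2))) * En u * En (2 * k + u + 2) * ie) * En_mul_ie
    have e1 : 2 * (k + (u + 1)) = 2 * (k + u) + 1 + 1 := by ring
    have e2 : k + (u + 1) = k + u + 1 := by ring
    have e3 : 2 * k + (u + 1) + 1 = 2 * k + u + 2 := by ring
    rw [hT1, hT2, e1, e2, e3, Dn_succ, Dn_succ]
    have hN := Nn_succ (k + u)
    have hE1 := En_succ u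
    have hE2 := En_succ (2 * k + u)
    have hE3 := En_succ (2 * k + u + 1)
    have e5 : 2 * k + u + 1 + 1 = 2 * k + u + 2 := rfl
    rw [e5] at hE3
    rw [hE3] at ih hE2
    rw [hE2]
    have hEu : (1 - X ^ (2 * (u + 1))) * En (u + 1) = En u := by rw [hE1]; ring
    rw [hN] at ih ⊢
    have goal2 : X ^ (2 * k) * (1 + X ^ (2 * k + 2)) *
        (Nn (k + u + 1) * (Dn (2 * (k + u)) * (1 - X ^ (2 * (2 * (k + u)) + 2)) *
          (1 - X ^ (2 * (2 * (k + u) + 1) + 2))) * (1 - X ^ (2 * (u + 1))) * En (u + 1) *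
          En (2 * k + u + 2) * ie) =
        X ^ (2 * k) * (1 + X ^ (2 * k + 2)) *
        (Nn (k + u + 1) * (Dn (2 * (k + u)) * (1 - X ^ (2 * (2 * (k + u)) + 2)) *
          (1 - X ^ (2 * (2 * (k + u) + 1) + 2))) * En u * En (2 * k + u + 2) * ie) := by
      linear_combination (X ^ (2 * k) * (1 + X ^ (2 * k + 2)) *
        (Nn (k + u + 1) * (Dn (2 * (k + u)) * (1 - X ^ (2 * (2 * (k + u)) + 2)) *
          (1 - X ^ (2 * (2 * (k + u) + 1) + 2))) * En (2 * k + u + 2) * ie)) * hEu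
    rw [goal2]
    rcases u with _ | u
    · linear_combination ih
    · have e6 : 2 * (u + 1) - 2 = 2 * u := by omega
      rw [e6]
      linear_combination ih

lemma one_mul_dvd {f g : ℤ⟦X⟧} {d : ℕ} (hf : X ^ d ∣ f - 1) (hg : X ^ d ∣ g - 1) :
    X ^ d ∣ f * g - 1 := by
  have : f * g - 1 = (f - 1) * g + (g - 1) := by ring
  rw [this]
  exact dvd_add (dvd_mul_of_dvd_left hf _) hg

lemma mono_dvd {f : ℤ⟦X⟧} {d e : ℕ} (h : X ^ d ∣ f) (he : e ≤ d) : X ^ e ∣ f :=
  (pow_dvd_pow X he).trans h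

lemma Dn_ie_dvd (n : ℕ) : X ^ (2 * n + 2) ∣ Dn n * ie - 1 := by
  have h1 : Dn n * ie * En n = 1 := by
    have := En_zero n
    have h2 := En_mul_ie
    rw [this] at h2
    linear_combination h2
  obtain ⟨g, hg⟩ := En_dvd n
  refine ⟨- (Dn n * ie) * g, ?_⟩
  linear_combination h1 - Dn n * ie * hg

lemma g_dvd (k u : ℕ) : X ^ (2 * u) ∣ Nn (k + u) * Dn (2 * (k + u)) * (1 - X ^ (2 * u)) * En u *
      En (2 * k + u + 1) * ie - 1 := by
  have h : Nn (k + u) * Dn (2 * (k + u)) * (1 - X ^ (2 * u)) * En u * En (2 * k + u + 1) * ie =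
      Nn (k + u) * (Dn (2 * (k + u)) * ie) * (1 - X ^ (2 * u)) * En u * En (2 * k + u + 1) := by ring
  rw [h]
  refine one_mul_dvd (one_mul_dvd (one_mul_dvd (one_mul_dvd ?_ ?_) ?_) ?_) ?_
  · exact mono_dvd (Nn_dvd _) (by omega)
  · exact mono_dvd (Dn_ie_dvd _) (by omega)
  · exact ⟨-1, by ring⟩
  · exact mono_dvd (En_dvd _) (by omega)
  · exact mono_dvd (En_dvd _) (by omega)

/-- signs: `+` for `s ≡ 1,2`, `-` for `s ≡ 4,5 (mod 6)`, `0` for `3 ∣ s`. -/
def eps (s : ℕ) : ℤ :=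
  if s % 6 = 1 ∨ s % 6 = 2 then 1 else if s % 6 = 4 ∨ s % 6 = 5 then -1 else 0

lemma eps_add_three (s : ℕ) : eps (s + 3) = - eps s := by
  unfold eps
  have : s % 6 = 0 ∨ s % 6 = 1 ∨ s % 6 = 2 ∨ s % 6 = 3 ∨ s % 6 = 4 ∨ s % 6 = 5 := by omega
  rcases this with h | h | h | h | h | h
  · have h' : (s + 3) % 6 = 3 := by omega
    simp [h, h']
  · have h' : (s + 3) % 6 = 4 := by omega
    simp [h, h']
  · have h' : (s + 3) % 6 = 5 := by omega
    simp [h, h']
  · have h' : (s + 3) % 6 = 0 := by omega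
    simp [h, h']
  · have h' : (s + 3) % 6 = 1 := by omega
    simp [h, h']
  · have h' : (s + 3) % 6 = 2 := by omega
    simp [h, h']

lemma eps_eq_zero {s : ℕ} (h : s % 3 = 0) : eps s = 0 := by
  unfold eps
  have : s % 6 = 0 ∨ s % 6 = 3 := by omega
  rcases this with h | h <;> simp [h]

/-- exponent -/
def ex (k s : ℕ) : ℕ := 2 * k * s + 2 * ((s ^ 2 - 1) / 3)

lemma three_mul_div {s : ℕ} (h : s % 3 ≠ 0) : 3 * ((s ^ 2 - 1) / 3) + 1 = s ^ 2 := by
  have h1 : s % 3 = 1 ∨ s % 3 = 2 := by omega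
  have h2 : s ^ 2 % 3 = 1 := by
    rcases h1 with h | h <;> simp [Nat.pow_mod, h]
  omega

lemma ex_add_three (k s : ℕ) (h : s % 3 ≠ 0) : ex k (s + 3) = 6 * k + 6 + ex (k + 2) s := by
  unfold ex
  have h1 := three_mul_div h
  have h2 := three_mul_div (s := s + 3) (by omega)
  have h3 : ((s + 3) ^ 2 - 1) / 3 = (s ^ 2 - 1) / 3 + 2 * s + 3 := by
    have : (s + 3) ^ 2 = s ^ 2 + 6 * s + 9 := by ring
    omega
  rw [h3]
  ring

/-- partial theta sums -/
noncomputable def b (L k : ℕ) : ℤ⟦X⟧ := ∑ s ∈ range L, C (eps s) * X ^ (ex k s)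

lemma b_rec (L k : ℕ) : b (L + 3) k =
    X ^ (2 * k) * (1 + X ^ (2 * k + 2)) - X ^ (6 * k + 6) * b L (k + 2) := by
  unfold b
  rw [add_comm L 3, sum_range_add]
  have h1 : ∑ s ∈ range 3, C (eps s) * X ^ (ex k s) = (X : ℤ⟦X⟧) ^ (2 * k) * (1 + X ^ (2 * k + 2)) := by
    simp only [sum_range_succ, range_zero, sum_empty, zero_add]
    simp [eps, ex]
    ring
  rw [h1, mul_sum, sub_eq_add_neg, ← sum_neg_distrib]
  congr 1
  apply sum_congr rfl
  intro s _
  rw [add_comm 3 s]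
  by_cases hs : s % 3 = 0
  · rw [eps_add_three, eps_eq_zero hs]
    simp
  · rw [eps_add_three, ex_add_three k s hs]
    simp only [map_neg]
    ring

lemma b_dvd (L k : ℕ) : X ^ (2 * k) ∣ b L k := by
  unfold b
  apply dvd_sum
  intro s _
  by_cases hs : s % 3 = 0
  · rw [eps_eq_zero hs]; simp
  · apply dvd_mul_of_dvd_right
    apply pow_dvd_pow
    unfold ex
    have : 1 ≤ s := by
      rcases s with _ | s
      · simp at hs
      · omega
    have h2 : 2 * k * 1 ≤ 2 * k * s := Nat.mul_le_mul_left _ this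
    omega

lemma B_sub_b (M : ℕ) : ∀ t k L : ℕ, M ≤ k + 2 * t → 3 * t ≤ L → X ^ (2 * M) ∣ B M k - b L k := by
  intro t
  induction t with
  | zero =>
    intro k L hk _
    rw [B_zero_of_le (by omega)]
    rw [zero_sub, dvd_neg]
    exact mono_dvd (b_dvd L k) (by omega)
  | succ t ih =>
    intro k L hk hL
    by_cases hMk : M ≤ k
    · rw [B_zero_of_le hMk]
      rw [zero_sub, dvd_neg]
      exact mono_dvd (b_dvd L k) (by omega)
    · obtain ⟨u, rfl⟩ := Nat.exists_eq_add_of_le (show k ≤ M by omega)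
      obtain ⟨L', rfl⟩ := Nat.exists_eq_add_of_le (show 3 ≤ L by omega)
      have h1 := B_rec k u
      have h2 := b_rec L' k
      have h3 := ih (k + 2) L' (by omega) (by omega)
      obtain ⟨g, hg⟩ := g_dvd k u
      obtain ⟨g', hg'⟩ := h3
      rw [add_comm 3 L']
      refine ⟨(1 + X ^ (2 * k + 2)) * g - X ^ (6 * k + 6) * g', ?_⟩
      have hpow : (X : ℤ⟦X⟧) ^ (2 * (k + u)) = X ^ (2 * k) * X ^ (2 * u) := by
        rw [← pow_add]; congr 1; ring
      rw [hpow] at hg' ⊢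
      linear_combination h1 - h2 + X ^ (2 * k) * (1 + X ^ (2 * k + 2)) * hg - X ^ (6 * k + 6) * hg'

/-- `φ(-q)` as an infinite product -/
noncomputable def phiM : ℤ⟦X⟧ := On 0 ^ 2 * En 0

lemma phiM_genTerm (m : ℕ) : phiM * genTerm m = X * ∑ k ∈ range (m + 1), a k * T m k := by
  rw [genTerm_eq]
  have h1 : On m ^ 2 * Ring.inverse (On m ^ 2) = 1 :=
    Ring.mul_inverse_cancel _ ((isUnit_On m).pow 2)
  have h2 : ∑ k ∈ range (m + 1), a k * T m k = X ^ (2 * m) * Nn m * En 0 * Pn m ^ 2 := by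
    rw [jtp, mul_sum]
    apply sum_congr rfl
    intro k _
    unfold T
    ring
  rw [h2]
  unfold phiM
  rw [On_zero m]
  linear_combination (Pn m ^ 2 * En 0 * Nn m * X ^ (2 * m + 1)) * h1

lemma phiM_partial (M : ℕ) :
    phiM * ∑ m ∈ range M, genTerm m = X * ∑ k ∈ range M, a k * B M k := by
  rw [mul_sum]
  simp_rw [phiM_genTerm]
  rw [← mul_sum]
  congr 1
  unfold B
  simp_rw [mul_sum]
  rw [sum_comm (s := range M) (t := range M)]
  apply sum_congr rfl
  intro m hm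
  rw [mem_range] at hm
  apply sum_subset
  · intro k hk
    rw [mem_range] at hk ⊢
    omega
  · intro k _ hk
    rw [mem_range] at hk
    unfold T
    rw [G_zero_of_lt (by omega)]
    ring

lemma genTerm_dvd (m : ℕ) : X ^ (2 * m + 1) ∣ genTerm m := by
  rw [genTerm_eq]
  exact ⟨Nn m * Ring.inverse (On m ^ 2), by ring⟩

lemma genFun_dvd (M : ℕ) : X ^ M ∣ genFun - ∑ m ∈ range M, genTerm m :=
  dvd_tsum_sub genTerm (fun m => mono_dvd (genTerm_dvd m) (by omega)) M

lemma main_dvd (M : ℕ) :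
    X ^ M ∣ phiM * genFun - X * ∑ k ∈ range M, a k * b (3 * M) k := by
  have h1 := genFun_dvd M
  have h2 : X ^ M ∣ X * ∑ k ∈ range M, a k * B M k - X * ∑ k ∈ range M, a k * b (3 * M) k := by
    rw [← mul_sub, ← sum_sub_distrib]
    apply dvd_mul_of_dvd_right
    apply dvd_sum
    intro k _
    rw [← mul_sub]
    apply dvd_mul_of_dvd_right
    exact mono_dvd (B_sub_b M M k (3 * M) (by omega) le_rfl) (by omega)
  have h3 : phiM * genFun - X * ∑ k ∈ range M, a k * b (3 * M) k =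
      phiM * (genFun - ∑ m ∈ range M, genTerm m) +
      (X * ∑ k ∈ range M, a k * B M k - X * ∑ k ∈ range M, a k * b (3 * M) k) := by
    rw [← phiM_partial M]
    ring
  rw [h3]
  exact dvd_add (dvd_mul_of_dvd_right h1 _) h2

/-- coefficients of the right-hand side -/
def hc (e : ℕ) : ℤ := ∑ k ∈ range (e + 1), ∑ s ∈ range (3 * (e + 1)),
  if k ^ 2 + 1 + ex k s = e then w k * (-1) ^ k * eps s else 0

/-- `φ(-q) C(q) = ∑ h(e) q^e` -/
theorem phiM_mul_genFun : phiM * genFun = PowerSeries.mk hc := by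
  ext e
  rw [coeff_eq_of_dvd (main_dvd (e + 1)) (Nat.lt_succ_self e), coeff_mk]
  have : X * ∑ k ∈ range (e + 1), a k * b (3 * (e + 1)) k =
      ∑ k ∈ range (e + 1), ∑ s ∈ range (3 * (e + 1)),
        C (w k * (-1) ^ k * eps s) * (X : ℤ⟦X⟧) ^ (k ^ 2 + 1 + ex k s) := by
    rw [mul_sum]
    apply sum_congr rfl
    intro k _
    unfold b a
    rw [mul_sum, mul_sum]
    apply sum_congr rfl
    intro s _
    rw [map_mul C (w k * (-1) ^ k) (eps s)]
    ring
  rw [this]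
  simp only [map_sum]
  unfold hc
  apply sum_congr rfl
  intro k _
  apply sum_congr rfl
  intro s _
  rw [← PowerSeries.smul_eq_C_mul]
  simp only [map_smul, coeff_X_pow, smul_eq_mul]
  split_ifs with h1 h2 h2
  · ring
  · exact absurd h1.symm h2
  · exact absurd h2.symm h1
  · ring

/-- theta expansion of `φ(-q)` -/
lemma phiM_dvd (m : ℕ) : X ^ (2 * m + 1) ∣ phiM - ∑ k ∈ range (m + 1), a k := by
  have h1 : X ^ (2 * m + 1) ∣ phiM - En 0 * Pn m ^ 2 := by
    unfold phiM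
    rw [On_zero m]
    obtain ⟨g, hg⟩ := On_dvd m
    refine ⟨Pn m ^ 2 * En 0 * (On m + 1) * g, ?_⟩
    linear_combination (Pn m ^ 2 * En 0 * (On m + 1)) * hg
  have h2 : X ^ (2 * m + 1) ∣ En 0 * Pn m ^ 2 - ∑ k ∈ range (m + 1), a k := by
    rw [jtp, mul_sum, ← sum_sub_distrib]
    apply dvd_sum
    intro k hk
    rw [mem_range] at hk
    obtain ⟨u, rfl⟩ := Nat.exists_eq_add_of_le (show k ≤ m by omega)
    have h3 : X ^ (2 * u + 2) ∣ En 0 * G (k + u) k - 1 := by
      rw [G_add]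
      have : En 0 * (Dn (2 * (k + u)) * En u * En (2 * k + u) * ie ^ 2) =
          (Dn (2 * (k + u)) * ie) * En u * En (2 * k + u) := by
        linear_combination (Dn (2 * (k + u)) * En u * En (2 * k + u) * ie) * En_mul_ie
      rw [this]
      refine one_mul_dvd (one_mul_dvd ?_ ?_) ?_
      · exact mono_dvd (Dn_ie_dvd _) (by omega)
      · exact mono_dvd (En_dvd _) (by omega)
      · exact mono_dvd (En_dvd _) (by omega)
    obtain ⟨g, hg⟩ := h3
    have h4 : En 0 * (a k * G (k + u) k) - a k = C (w k * (-1) ^ k) * (X ^ (k ^ 2 + (2 * u + 2)) * g) := by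
      unfold a
      rw [pow_add]
      linear_combination (C (w k * (-1) ^ k) * X ^ (k ^ 2)) * hg
    rw [h4]
    apply dvd_mul_of_dvd_right
    apply dvd_mul_of_dvd_left
    apply pow_dvd_pow
    nlinarith [sq_nonneg ((k : ℤ) - 1), Nat.zero_le k, show k ^ 2 + 1 ≥ 2 * k from by nlinarith [sq_nonneg ((k : ℤ) - 1)]]
  have := dvd_add h1 h2
  simpa using this

end Pool.Agent.W_MP_e258d6_nt
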