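import Pool.Agent.W_MP_e258d6_nt.Defs

set_option autoImplicit false

namespace Pool.Agent.W_MP_e258d6_nt

open PowerSeries Filter Topology
open scoped PowerSeries.WithPiTopology

/-- `∏_{j ≥ 0} (1 + t q^{r+2j})`. -/
noncomputable def F (t : ℤ) (r : ℕ) : ℤ⟦X⟧ := ∏' j : ℕ, (1 + C t * X ^ (r + 2 * j))

lemma multipliable_F (t : ℤ) (r : ℕ) :
    Multipliable fun j : ℕ => (1 : ℤ⟦X⟧) + C t * X ^ (r + 2 * j) := by
  apply WithPiTopology.multipliable_one_add_of_tendsto_order_atTop_nhds_top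
  refine ENat.tendsto_nhds_top_iff_natCast_lt.mpr (fun n => Filter.eventually_atTop.mpr ⟨n + 1, ?_⟩)
  intro m hm
  refine lt_of_lt_of_le ?_ (le_order_mul (φ := C t) (ψ := X ^ (r + 2 * m)))
  rw [order_X_pow]
  refine lt_of_lt_of_le ?_ (le_add_of_nonneg_left (by simp))
  exact_mod_cast (by omega : n < r + 2 * m)

lemma F_succ (t : ℤ) (r : ℕ) : F t r = (1 + C t * X ^ r) * F t (r + 2) := by
  unfold F
  have h : ∀ j : ℕ, (1 : ℤ⟦X⟧) + C t * X ^ (r + 2 * (j + 1)) = 1 + C t * X ^ (r + 2 + 2 * j) := by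
    intro j
    congr 3
    ring
  rw [tprod_eq_zero_mul']
  · simp only [mul_zero, add_zero, h]
  · simp only [h]
    exact multipliable_F t (r + 2)

lemma dvd_of_coeff_eq {f g : ℤ⟦X⟧} {d : ℕ} (h : ∀ n < d, coeff n f = coeff n g) :
    X ^ d ∣ f - g := by
  rw [X_pow_dvd_iff]
  intro m hm
  rw [map_sub, h m hm, sub_self]

lemma coeff_eq_of_dvd {f g : ℤ⟦X⟧} {d n : ℕ} (h : X ^ d ∣ f - g) (hn : n < d) :
    coeff n f = coeff n g := by
  rw [X_pow_dvd_iff] at h
  have := h n hn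
  rw [map_sub, sub_eq_zero] at this
  exact this

lemma F_dvd (t : ℤ) (r : ℕ) : X ^ r ∣ F t r - 1 := by
  apply dvd_of_coeff_eq
  intro n hn
  have h := (multipliable_F t r).hasProd
  have h2 : Tendsto (fun s : Finset ℕ => coeff n (∏ j ∈ s, ((1 : ℤ⟦X⟧) + C t * X ^ (r + 2 * j))))
      atTop (𝓝 (coeff n (F t r))) :=
    ((WithPiTopology.continuous_coeff ℤ n).tendsto _).comp h
  have h3 : ∀ s : Finset ℕ, coeff n (∏ j ∈ s, ((1 : ℤ⟦X⟧) + C t * X ^ (r + 2 * j))) =
      coeff n (1 : ℤ⟦X⟧) := by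
    intro s
    refine coeff_eq_of_dvd (d := r) ?_ hn
    induction s using Finset.induction_on with
    | empty => simp
    | insert a s ha ih =>
      rw [Finset.prod_insert ha]
      obtain ⟨g, hg⟩ := ih
      refine ⟨C t * X ^ (2 * a) * (∏ j ∈ s, ((1 : ℤ⟦X⟧) + C t * X ^ (r + 2 * j))) + g, ?_⟩
      have : X ^ (r + 2 * a) = (X : ℤ⟦X⟧) ^ r * X ^ (2 * a) := pow_add _ _ _
      rw [this]
      linear_combination hg
  simp only [h3] at h2
  exact tendsto_nhds_unique h2 tendsto_const_nhds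

/-- `(-q^{2m+2};q²)_∞` -/
noncomputable def Nn (m : ℕ) : ℤ⟦X⟧ := F 1 (2 * m + 2)
/-- `(q^{2m+1};q²)_∞` -/
noncomputable def On (m : ℕ) : ℤ⟦X⟧ := F (-1) (2 * m + 1)
/-- `(q^{2m+2};q²)_∞` -/
noncomputable def En (m : ℕ) : ℤ⟦X⟧ := F (-1) (2 * m + 2)

lemma Nn_succ (m : ℕ) : Nn m = (1 + X ^ (2 * m + 2)) * Nn (m + 1) := by
  unfold Nn
  rw [F_succ]
  simp only [map_one, one_mul]
  congr 2

lemma On_succ (m : ℕ) : On m = (1 - X ^ (2 * m + 1)) * On (m + 1) := by
  unfold On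
  rw [F_succ]
  simp only [map_neg, map_one, neg_mul, one_mul, ← sub_eq_add_neg]
  congr 2

lemma En_succ (m : ℕ) : En m = (1 - X ^ (2 * m + 2)) * En (m + 1) := by
  unfold En
  rw [F_succ]
  simp only [map_neg, map_one, neg_mul, one_mul, ← sub_eq_add_neg]
  congr 2

lemma Nn_dvd (m : ℕ) : X ^ (2 * m + 2) ∣ Nn m - 1 := F_dvd _ _
lemma On_dvd (m : ℕ) : X ^ (2 * m + 1) ∣ On m - 1 := F_dvd _ _
lemma En_dvd (m : ℕ) : X ^ (2 * m + 2) ∣ En m - 1 := F_dvd _ _

lemma isUnit_of_dvd {f : ℤ⟦X⟧} {d : ℕ} (hd : 0 < d) (h : X ^ d ∣ f - 1) : IsUnit f := by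
  rw [PowerSeries.isUnit_iff_constantCoeff]
  have := coeff_eq_of_dvd h hd
  rw [coeff_zero_eq_constantCoeff_apply, coeff_zero_eq_constantCoeff_apply] at this
  rw [this]
  simp

lemma isUnit_On (m : ℕ) : IsUnit (On m) := isUnit_of_dvd (by omega) (On_dvd m)
lemma isUnit_En (m : ℕ) : IsUnit (En m) := isUnit_of_dvd (by omega) (En_dvd m)

lemma genTerm_eq (m : ℕ) : genTerm m = Nn m * X ^ (2 * m + 1) * Ring.inverse (On m ^ 2) := by
  unfold genTerm Nn On F
  simp only [map_one, one_mul, map_neg, neg_mul, ← sub_eq_add_neg]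

/-- if all terms are divisible by growing powers, the sum is approximated by partial sums -/
lemma dvd_tsum_sub (f : ℕ → ℤ⟦X⟧) (hf : ∀ m, X ^ m ∣ f m) (M : ℕ) :
    X ^ M ∣ (∑' m, f m) - ∑ m ∈ Finset.range M, f m := by
  have hsum : Summable f := by
    rw [WithPiTopology.summable_iff_summable_coeff]
    intro n
    apply summable_of_hasFiniteSupport
    apply (Finset.range (n + 1)).finite_toSet.subset
    intro m hm
    simp only [Function.mem_support, ne_eq] at hm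
    simp only [Finset.coe_range, Set.mem_Iio]
    by_contra hlt
    apply hm
    have := hf m
    rw [X_pow_dvd_iff] at this
    exact this n (by omega)
  apply dvd_of_coeff_eq
  intro n hn
  have h1 := (WithPiTopology.hasSum_iff_hasSum_coeff (R := ℤ)).mp hsum.hasSum n
  rw [map_sum]
  refine h1.unique (hasSum_sum_of_ne_finset_zero ?_)
  intro m hm
  have := hf m
  rw [X_pow_dvd_iff] at this
  apply this n
  simp at hm
  omega

end Pool.Agent.W_MP_e258d6_nt
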