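import Pool.Agent.W_MP_e258d6_nt.Arith

set_option autoImplicit false

namespace Pool.Agent.W_MP_e258d6_nt

open PowerSeries Finset

lemma four_ne : (4 : ℕ) ≠ 0 := by norm_num
lemma two_ne : (2 : ℕ) ≠ 0 := by norm_num

/-- `φ(q) = ∑_{k ∈ ℤ} q^{k²}` -/
noncomputable def phi : ℤ⟦X⟧ := PowerSeries.mk fun n => ∑ k ∈ range (n + 1), if k ^ 2 = n then w k else 0

/-- `ψ(q²) = ∑_{j ≥ 0} q^{j(j+1)}` -/
noncomputable def psi : ℤ⟦X⟧ :=
  PowerSeries.mk fun n => ∑ j ∈ range (n + 1), if j * (j + 1) = n then 1 else 0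

lemma sum_sq_of_eq (f : ℕ → ℤ) {n j : ℕ} (h : j ^ 2 = n) :
    (∑ k ∈ range (n + 1), if k ^ 2 = n then f k else 0) = f j := by
  rw [sum_eq_single j]
  · rw [if_pos h]
  · intro k _ hk
    rw [if_neg]
    intro h2
    apply hk
    exact Nat.pow_left_injective (by norm_num : (2 : ℕ) ≠ 0) (by simpa [h] using h2)
  · intro hj
    exfalso
    apply hj
    rw [mem_range]
    nlinarith

lemma sum_sq_of_ne (f : ℕ → ℤ) {n : ℕ} (h : ∀ j : ℕ, j ^ 2 ≠ n) :
    (∑ k ∈ range (n + 1), if k ^ 2 = n then f k else 0) = 0 := by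
  apply sum_eq_zero
  intro k _
  rw [if_neg (h k)]

lemma sum_tri_of_eq {n j : ℕ} (h : j * (j + 1) = n) :
    (∑ k ∈ range (n + 1), if k * (k + 1) = n then (1 : ℤ) else 0) = 1 := by
  rw [sum_eq_single j]
  · rw [if_pos h]
  · intro k _ hk
    rw [if_neg]
    intro h2
    apply hk
    rcases lt_trichotomy k j with h3 | h3 | h3
    · nlinarith
    · exact h3
    · nlinarith
  · intro hj
    exfalso
    apply hj
    rw [mem_range]
    nlinarith

lemma sum_tri_of_ne {n : ℕ} (h : ∀ j : ℕ, j * (j + 1) ≠ n) :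
    (∑ k ∈ range (n + 1), if k * (k + 1) = n then (1 : ℤ) else 0) = 0 := by
  apply sum_eq_zero
  intro k _
  rw [if_neg (h k)]

lemma coeff_X_mul_expand (f : ℤ⟦X⟧) (n : ℕ) :
    coeff n (X * expand 4 four_ne f) = if n % 4 = 1 then coeff (n / 4) f else 0 := by
  rcases n with _ | n
  · simp
  · rw [coeff_succ_X_mul, coeff_expand]
    by_cases h : 4 ∣ n
    · obtain ⟨m, rfl⟩ := h
      rw [if_pos (by simp), if_pos (by omega)]
      congr 2
      omega
    · rw [if_neg h, if_neg (by omega)]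

lemma sq_cases (f : ℕ → ℤ) (hf : ∀ k, f (2 * k) = w k) (c1 : ℤ) (hf1 : ∀ k, f (2 * k + 1) = c1) :
    (PowerSeries.mk fun n => ∑ k ∈ range (n + 1), if k ^ 2 = n then f k else 0) =
      expand 4 four_ne phi + C c1 * (X * expand 4 four_ne psi) := by
  ext n
  rw [coeff_mk, map_add, coeff_C_mul, coeff_X_mul_expand, coeff_expand]
  have hn : n % 4 = 0 ∨ n % 4 = 1 ∨ n % 4 = 2 ∨ n % 4 = 3 := by omega
  rcases hn with hn | hn | hn | hn
  · obtain ⟨m, rfl⟩ : ∃ m, n = 4 * m := ⟨n / 4, by omega⟩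
    rw [if_pos (by simp), if_neg (by omega)]
    have : 4 * m / 4 = m := by omega
    rw [this, mul_zero, add_zero]
    unfold phi
    rw [coeff_mk]
    by_cases h : ∃ j : ℕ, j ^ 2 = m
    · obtain ⟨j, hj⟩ := h
      rw [sum_sq_of_eq w hj, sum_sq_of_eq f (j := 2 * j) (by rw [← hj]; ring), hf]
    · push Not at h
      rw [sum_sq_of_ne w h, sum_sq_of_ne f]
      intro j hj
      have hj2 : j % 2 = 0 := by
        have h4 : j ^ 2 % 4 = 0 := by omega
        have : j % 4 = 0 ∨ j % 4 = 1 ∨ j % 4 = 2 ∨ j % 4 = 3 := by omega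
        rcases this with h5 | h5 | h5 | h5 <;> simp [Nat.pow_mod, h5] at h4 <;> omega
      obtain ⟨i, rfl⟩ : ∃ i, j = 2 * i := ⟨j / 2, by omega⟩
      apply h i
      have : 4 * i ^ 2 = 4 * m := by rw [← hj]; ring
      omega
  · obtain ⟨m, rfl⟩ : ∃ m, n = 4 * m + 1 := ⟨n / 4, by omega⟩
    rw [if_neg (by omega), if_pos (by omega)]
    have : (4 * m + 1) / 4 = m := by omega
    rw [this, zero_add]
    unfold psi
    rw [coeff_mk]
    by_cases h : ∃ j : ℕ, j * (j + 1) = m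
    · obtain ⟨j, hj⟩ := h
      rw [sum_tri_of_eq hj, sum_sq_of_eq f (j := 2 * j + 1) (by rw [← hj]; ring), hf1]
      ring
    · push Not at h
      rw [sum_tri_of_ne h, sum_sq_of_ne f]
      · ring
      intro j hj
      have hj2 : j % 2 = 1 := by
        by_contra h6
        obtain ⟨i, rfl⟩ : ∃ i, j = 2 * i := ⟨j / 2, by omega⟩
        have : 4 * i ^ 2 = 4 * m + 1 := by rw [← hj]; ring
        omega
      obtain ⟨i, rfl⟩ : ∃ i, j = 2 * i + 1 := ⟨j / 2, by omega⟩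
      apply h i
      have : 4 * (i * (i + 1)) + 1 = 4 * m + 1 := by rw [← hj]; ring
      omega
  · rw [if_neg (by omega), if_neg (by omega), mul_zero, add_zero]
    apply sum_sq_of_ne
    intro j hj
    have h4 : j ^ 2 % 4 = 2 := by omega
    have : j % 4 = 0 ∨ j % 4 = 1 ∨ j % 4 = 2 ∨ j % 4 = 3 := by omega
    rcases this with h5 | h5 | h5 | h5 <;> simp [Nat.pow_mod, h5] at h4
  · rw [if_neg (by omega), if_neg (by omega), mul_zero, add_zero]
    apply sum_sq_of_ne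
    intro j hj
    have h4 : j ^ 2 % 4 = 3 := by omega
    have : j % 4 = 0 ∨ j % 4 = 1 ∨ j % 4 = 2 ∨ j % 4 = 3 := by omega
    rcases this with h5 | h5 | h5 | h5 <;> simp [Nat.pow_mod, h5] at h4

lemma phi_split : phi = expand 4 four_ne phi + 2 * (X * expand 4 four_ne psi) := by
  have h : phi = expand 4 four_ne phi + C 2 * (X * expand 4 four_ne psi) :=
    sq_cases w w_two_mul 2 (fun k => by simp [w])
  have h2 : (C (2 : ℤ) : ℤ⟦X⟧) = 2 := by simp
  rwa [h2] at h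

lemma phiM_eq : phiM = expand 4 four_ne phi - 2 * (X * expand 4 four_ne psi) := by
  have h := sq_cases (fun k => w k * (-1) ^ k) (fun k => by rw [w_two_mul, pow_mul]; simp) (-2)
    (fun k => by simp [w, pow_succ, pow_mul])
  have h2 : phiM = PowerSeries.mk fun n => ∑ k ∈ range (n + 1), if k ^ 2 = n then w k * (-1) ^ k else 0 := by
    ext n
    rw [coeff_eq_of_dvd (phiM_dvd n) (by omega), map_sum, coeff_mk]
    apply sum_congr rfl
    intro k _
    unfold a
    rw [coeff_C_mul, coeff_X_pow]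
    by_cases h3 : k ^ 2 = n
    · rw [if_pos h3, if_pos h3.symm, mul_one]
    · rw [if_neg h3, if_neg (fun h4 => h3 h4.symm), mul_zero]
  rw [h2, h]
  simp [sub_eq_add_neg]

/-- dividing all coefficients by `d` -/
lemma exists_of_coeff_dvd (d : ℤ) (f : ℤ⟦X⟧) (h : ∀ n, d ∣ coeff n f) : ∃ g : ℤ⟦X⟧, f = C d * g := by
  choose g hg using h
  refine ⟨PowerSeries.mk g, ?_⟩
  ext n
  rw [coeff_C_mul, coeff_mk, hg]

lemma phi_mod_two : ∃ g : ℤ⟦X⟧, phi = 1 + 2 * g := by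
  have : ∀ n, (2 : ℤ) ∣ coeff n (phi - 1) := by
    intro n
    unfold phi
    rw [map_sub, coeff_mk, coeff_one]
    rcases Nat.eq_zero_or_pos n with rfl | hn
    · simp [w]
    · rw [if_neg (by omega), sub_zero]
      apply dvd_sum
      intro k _
      split_ifs with h
      · apply w_even
        rintro rfl
        simp at h
        omega
      · simp
  obtain ⟨g, hg⟩ := exists_of_coeff_dvd 2 _ this
  refine ⟨g, ?_⟩
  have h2 : (C (2 : ℤ) : ℤ⟦X⟧) = 2 := by simp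
  rw [h2] at hg
  linear_combination hg

lemma phi_sq : ∃ g : ℤ⟦X⟧, phi ^ 2 = 1 + 4 * g := by
  obtain ⟨g, hg⟩ := phi_mod_two
  exact ⟨g + g ^ 2, by rw [hg]; ring⟩

lemma phi_four : ∃ g : ℤ⟦X⟧, phi ^ 4 = 1 + 8 * g := by
  obtain ⟨g, hg⟩ := phi_sq
  refine ⟨g + 2 * g ^ 2, ?_⟩
  have : phi ^ 4 = (phi ^ 2) ^ 2 := by ring
  rw [this, hg]; ring

/-- squares modulo 2 -/
lemma sq_mod_two (f : ℤ⟦X⟧) : ∃ g : ℤ⟦X⟧, f ^ 2 = expand 2 two_ne f + 2 * g := by
  have : ∀ n, (2 : ℤ) ∣ coeff n (f ^ 2 - expand 2 two_ne f) := by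
    intro n
    have h1 : (PowerSeries.map (Int.castRingHom (ZMod 2)) f) ^ 2 =
        expand 2 two_ne (PowerSeries.map (Int.castRingHom (ZMod 2)) f) := by
      have h := MvPowerSeries.map_frobenius_expand (σ := Unit) (R := ZMod 2) 2 two_ne
        (f := PowerSeries.map (Int.castRingHom (ZMod 2)) f)
      rw [ZMod.frobenius_zmod] at h
      rw [MvPowerSeries.map_id] at h
      exact h.symm
    have h2 := congrArg (coeff n) h1
    rw [← map_pow, ← map_expand, coeff_map, coeff_map] at h2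
    rw [map_sub]
    rw [← sub_eq_zero, ← map_sub] at h2
    rwa [eq_intCast, ZMod.intCast_zmod_eq_zero_iff_dvd] at h2
  obtain ⟨g, hg⟩ := exists_of_coeff_dvd 2 _ this
  refine ⟨g, ?_⟩
  have h2 : (C (2 : ℤ) : ℤ⟦X⟧) = 2 := by simp
  rw [h2] at hg
  linear_combination hg

/-- coefficients outside multiples of 4 are even -/
def Sup4 (f : ℤ⟦X⟧) : Prop := ∀ n, ¬ 4 ∣ n → (2 : ℤ) ∣ coeff n f

lemma Sup4.mul {f g : ℤ⟦X⟧} (hf : Sup4 f) (hg : Sup4 g) : Sup4 (f * g) := by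
  intro n hn
  rw [coeff_mul]
  apply dvd_sum
  rintro ⟨i, j⟩ hij
  rw [HasAntidiagonal.mem_antidiagonal] at hij
  simp only at hij ⊢
  by_cases hi : 4 ∣ i
  · apply dvd_mul_of_dvd_right
    apply hg
    omega
  · apply dvd_mul_of_dvd_left
    exact hf i hi

lemma Sup4_phi : Sup4 phi := by
  obtain ⟨g, hg⟩ := phi_mod_two
  intro n hn
  rw [hg]
  have h2 : (2 : ℤ⟦X⟧) = C 2 := by simp
  rw [map_add, coeff_one, if_neg (by omega), h2, coeff_C_mul]
  exact ⟨_, by ring⟩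

lemma Sup4_psi_sq : Sup4 (psi ^ 2) := by
  obtain ⟨g, hg⟩ := sq_mod_two psi
  intro n hn
  rw [hg]
  have h2 : (2 : ℤ⟦X⟧) = C 2 := by simp
  rw [map_add, h2, coeff_C_mul, coeff_expand]
  apply dvd_add _ (dvd_mul_right _ _)
  split_ifs with h
  · obtain ⟨m, rfl⟩ := h
    have : 2 * m / 2 = m := by omega
    rw [this]
    unfold psi
    rw [coeff_mk, sum_tri_of_ne]
    · simp
    · intro j hj
      obtain ⟨i, hi⟩ := Nat.even_mul_succ_self j
      omega
  · simp

end Pool.Agent.W_MP_e258d6_nt
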